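import Mathlib

/-!
Definitions: measures of Mackey noncompactness in dual spaces and the reciprocal Dunford-Pettis
property.
-/

namespace Pool.Agent.P.MP_997199_an

open Filter Topology
open scoped ENNReal

universe u

/-- The excess `sup_{x ∈ A} d(x, B)`. -/
noncomputable def dhat {M : Type*} [PseudoEMetricSpace M] (A B : Set M) : ℝ≥0∞ :=
  ⨆ x ∈ A, Metric.infEDist x B

/-- The infimum of the excesses of `A` over finite subsets of `A`. -/
noncomputable def chi0 {M : Type*} [PseudoEMetricSpace M] (A : Set M) : ℝ≥0∞ :=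
  ⨅ F : Set M, ⨅ _ : F.Finite ∧ F ⊆ A, dhat A F

/-- Weakly compact subsets of a normed space. -/
def WeaklyCompact (𝕜 : Type*) [RCLike 𝕜] {X : Type*} [NormedAddCommGroup X] [NormedSpace 𝕜 X]
    (L : Set X) : Prop :=
  IsCompact (toWeakSpace 𝕜 X '' L)

/-- Subsets of the dual that are compact for the topology of uniform convergence on weakly
compact subsets of `X`. -/
def MackeyCompact (𝕜 : Type*) [RCLike 𝕜] {X : Type*} [NormedAddCommGroup X] [NormedSpace 𝕜 X]
    (H : Set (StrongDual 𝕜 X)) : Prop :=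
  IsCompact ((fun f : StrongDual 𝕜 X =>
    UniformOnFun.ofFun {L : Set X | WeaklyCompact 𝕜 L} (fun x => f x)) '' H)

/-- The quantity `χ_m`; restrictions to `L` carry the sup distance. -/
noncomputable def chiM (𝕜 : Type*) [RCLike 𝕜] {X : Type*} [NormedAddCommGroup X]
    [NormedSpace 𝕜 X] (A : Set (StrongDual 𝕜 X)) : ℝ≥0∞ :=
  ⨆ L : Set X, ⨆ _ : L ⊆ Metric.closedBall 0 1 ∧ WeaklyCompact 𝕜 L,
    chi0 ((fun f : StrongDual 𝕜 X => UniformFun.ofFun (fun x : L => f x)) '' A)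

/-- The quantity `ω_m`. -/
noncomputable def omegaM (𝕜 : Type*) [RCLike 𝕜] {X : Type*} [NormedAddCommGroup X]
    [NormedSpace 𝕜 X] (A : Set (StrongDual 𝕜 X)) : ℝ≥0∞ :=
  ⨅ H : Set (StrongDual 𝕜 X), ⨅ _ : MackeyCompact 𝕜 H, dhat A H

/-- Weakly convergent sequences are mapped to norm convergent sequences. -/
def CompletelyContinuous (𝕜 : Type*) [RCLike 𝕜] {X Y : Type*} [NormedAddCommGroup X]
    [NormedSpace 𝕜 X] [NormedAddCommGroup Y] [NormedSpace 𝕜 Y] (T : X →L[𝕜] Y) : Prop :=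
  ∀ (x : ℕ → X) (a : X),
    Tendsto (fun n => toWeakSpace 𝕜 X (x n)) atTop (𝓝 (toWeakSpace 𝕜 X a)) →
      ∃ b : Y, Tendsto (fun n => T (x n)) atTop (𝓝 b)

/-- The image of the unit ball is relatively weakly compact. -/
def WeaklyCompactOp (𝕜 : Type*) [RCLike 𝕜] {X Y : Type*} [NormedAddCommGroup X]
    [NormedSpace 𝕜 X] [NormedAddCommGroup Y] [NormedSpace 𝕜 Y] (T : X →L[𝕜] Y) : Prop :=
  IsCompact (closure (toWeakSpace 𝕜 Y '' (T '' Metric.closedBall 0 1)))

/-- The reciprocal Dunford-Pettis property. -/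
def RDPP (𝕜 : Type*) [RCLike 𝕜] (X : Type*) [NormedAddCommGroup X] [NormedSpace 𝕜 X] : Prop :=
  ∀ (Y : Type u) [NormedAddCommGroup Y] [NormedSpace 𝕜 Y] [CompleteSpace Y] (T : X →L[𝕜] Y),
    CompletelyContinuous 𝕜 T → WeaklyCompactOp 𝕜 T

end Pool.Agent.P.MP_997199_an
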