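import Mathlib
import Pool.Agent.P.MP_997199_an.Defs

/-!
Quadratic control functionals, a criterion for weak compactness, and unconditionally converging
families of functionals.
-/

namespace Pool.Agent.P.MP_997199_an

open Filter Topology

variable {𝕜 : Type*} [RCLike 𝕜]
variable {X : Type*} [NormedAddCommGroup X] [NormedSpace 𝕜 X]
variable {X' : Type*} [NormedAddCommGroup X'] [NormedSpace 𝕜 X']

/-- A nonnegative bounded functional with the parallelogram inequality. -/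
structure IsQ (𝕜 : Type*) [RCLike 𝕜] {X : Type*} [NormedAddCommGroup X] [NormedSpace 𝕜 X]
    (Q : X → ℝ) : Prop where
  nonneg : ∀ x, 0 ≤ Q x
  bdd : ∃ C, ∀ x, Q x ≤ C * ‖x‖ ^ 2
  par : ∀ x y, Q (x + y) + Q (x - y) ≤ 2 * Q x + 2 * Q y
  smul : ∀ (c : 𝕜) x, Q (c • x) = ‖c‖ ^ 2 * Q x

lemma IsQ.zero : IsQ 𝕜 (fun _ : X => (0 : ℝ)) :=
  ⟨fun _ => le_rfl, ⟨0, fun _ => by simp⟩, fun _ _ => by simp, fun _ _ => by simp⟩

lemma IsQ.add {Q R : X → ℝ} (hQ : IsQ 𝕜 Q) (hR : IsQ 𝕜 R) : IsQ 𝕜 (fun x => Q x + R x) := by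
  refine ⟨fun x => add_nonneg (hQ.nonneg x) (hR.nonneg x), ?_, fun x y => ?_, fun c x => ?_⟩
  · obtain ⟨C, hC⟩ := hQ.bdd
    obtain ⟨D, hD⟩ := hR.bdd
    exact ⟨C + D, fun x => by nlinarith [hC x, hD x]⟩
  · linarith [hQ.par x y, hR.par x y]
  · rw [hQ.smul, hR.smul]; ring

lemma IsQ.sum {ι : Type*} (s : Finset ι) {Q : ι → X → ℝ} (hQ : ∀ i ∈ s, IsQ 𝕜 (Q i)) :
    IsQ 𝕜 (fun x => ∑ i ∈ s, Q i x) := by
  classical
  induction s using Finset.induction_on with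
  | empty => simpa using IsQ.zero
  | insert a s ha ih =>
    simp only [Finset.sum_insert ha]
    exact (hQ a (by simp)).add (ih fun i hi => hQ i (by simp [hi]))

lemma IsQ.const_mul {Q : X → ℝ} (hQ : IsQ 𝕜 Q) {c : ℝ} (hc : 0 ≤ c) :
    IsQ 𝕜 (fun x => c * Q x) := by
  refine ⟨fun x => mul_nonneg hc (hQ.nonneg x), ?_, fun x y => ?_, fun a x => ?_⟩
  · obtain ⟨C, hC⟩ := hQ.bdd
    exact ⟨c * C, fun x => by nlinarith [hC x]⟩
  · nlinarith [hQ.par x y]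
  · rw [hQ.smul]; ring

lemma IsQ.comp {Q : X → ℝ} (hQ : IsQ 𝕜 Q) (S : X' →L[𝕜] X) : IsQ 𝕜 (fun x => Q (S x)) := by
  refine ⟨fun x => hQ.nonneg _, ?_, fun x y => ?_, fun a x => ?_⟩
  · obtain ⟨C, hC⟩ := hQ.bdd
    refine ⟨|C| * ‖S‖ ^ 2, fun x => (hC _).trans ?_⟩
    have h1 : ‖S x‖ ^ 2 ≤ (‖S‖ * ‖x‖) ^ 2 :=
      pow_le_pow_left₀ (norm_nonneg _) (S.le_opNorm x) 2
    calc C * ‖S x‖ ^ 2 ≤ |C| * ‖S x‖ ^ 2 := by gcongr; exact le_abs_self C
      _ ≤ |C| * (‖S‖ * ‖x‖) ^ 2 := by gcongr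
      _ = _ := by ring
  · simp only [map_add, map_sub]; exact hQ.par _ _
  · simp only [map_smul]; exact hQ.smul _ _

/-- A family of functionals is controlled by quadratic functionals. -/
def Ctrl (H : Set (StrongDual 𝕜 X)) : Prop :=
  ∀ ε > 0, ∃ Q : X → ℝ, IsQ 𝕜 Q ∧ ∀ x, ‖x‖ ≤ 1 → Q x < 1 → ∀ h ∈ H, ‖h x‖ ≤ ε

/-- Random signs. -/
lemma IsQ.exists_signs {Q : X → ℝ} (hQ : IsQ 𝕜 Q) (x : ℕ → X) {C : ℝ} (hx : ∀ k, Q (x k) ≤ C)
    (m : ℕ) : ∃ b : ℕ → Bool,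
      Q (∑ k ∈ Finset.range m, (if b k then (1 : 𝕜) else -1) • x k) ≤ m * C := by
  induction m with
  | zero =>
    refine ⟨fun _ => true, ?_⟩
    have := hQ.smul 0 0
    simpa using this.le
  | succ m ih =>
    obtain ⟨b, hb⟩ := ih
    set s := ∑ k ∈ Finset.range m, (if b k then (1 : 𝕜) else -1) • x k with hs
    have key : ∀ c : Bool, ∑ k ∈ Finset.range (m + 1),
        (if (Function.update b m c) k then (1 : 𝕜) else -1) • x k
          = s + (if c then (1 : 𝕜) else -1) • x m := by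
      intro c
      rw [Finset.sum_range_succ, Function.update_self]
      congr 1
      refine Finset.sum_congr rfl fun k hk => ?_
      rw [Function.update_of_ne (Finset.mem_range.mp hk).ne]
    have hp := hQ.par s (x m)
    have hxm := hx m
    by_cases h : Q (s + x m) ≤ Q s + Q (x m)
    · refine ⟨Function.update b m true, ?_⟩
      rw [key]
      simp only [if_true, one_smul]
      push_cast; linarith
    · refine ⟨Function.update b m false, ?_⟩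
      rw [key]
      simp only [Bool.false_eq_true, if_false, neg_smul, one_smul, ← sub_eq_add_neg]
      push_cast; linarith

lemma mem_range_of_approx {Y G : Type*} [NormedAddCommGroup Y] [NormedSpace 𝕜 Y]
    [CompleteSpace Y] [NormedAddCommGroup G] [NormedSpace 𝕜 G] (J : Y →ₗᵢ[𝕜] G) (w : G)
    (h : ∀ ε > 0, ∃ y, ‖J y - w‖ < ε) : w ∈ Set.range J := by
  rw [← J.isometry.isClosedEmbedding.isClosed_range.closure_eq, Metric.mem_closure_iff]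
  intro ε hε
  obtain ⟨y, hy⟩ := h ε hε
  refine ⟨_, ⟨y, rfl⟩, ?_⟩
  rw [dist_comm, dist_eq_norm]
  exact hy

/-- Criterion for weak compactness of an operator. -/
theorem weaklyCompact_of_ctrl {Y : Type*} [NormedAddCommGroup Y] [NormedSpace 𝕜 Y]
    [CompleteSpace Y] (T : X →L[𝕜] Y)
    (hT : ∀ ε > 0, ∃ Q : X → ℝ, IsQ 𝕜 Q ∧ ∀ x, ‖x‖ ≤ 1 → Q x < 1 → ‖T x‖ ≤ ε) :
    WeaklyCompactOp 𝕜 T := by
  unfold WeaklyCompactOp
  apply NormedSpace.isCompact_closure_of_isBounded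
  · rw [Set.preimage_image_eq _ (toWeakSpace 𝕜 Y).injective]
    exact T.lipschitz.isBounded_image Metric.isBounded_closedBall
  intro w hw
  set w' : StrongDual 𝕜 (StrongDual 𝕜 Y) := WeakDual.toStrongDual w with hw'
  -- the approximating sets
  let S : Finset (StrongDual 𝕜 Y) → ℝ → Set X := fun Φ η =>
    {x | ‖x‖ ≤ 1 ∧ ∀ φ ∈ Φ, ‖φ (T x) - w' φ‖ ≤ η}
  have hSne : ∀ Φ η, 0 < η → (S Φ η).Nonempty := by
    intro Φ η hη
    have hopen : IsOpen {v : WeakDual 𝕜 (StrongDual 𝕜 Y) | ∀ φ ∈ Φ, ‖v φ - w' φ‖ < η} := by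
      have : {v : WeakDual 𝕜 (StrongDual 𝕜 Y) | ∀ φ ∈ Φ, ‖v φ - w' φ‖ < η}
          = ⋂ φ ∈ Φ, {v : WeakDual 𝕜 (StrongDual 𝕜 Y) | ‖v φ - w' φ‖ < η} := by
        ext v; simp
      rw [this]
      refine isOpen_biInter_finset fun φ _ => ?_
      exact isOpen_lt ((WeakDual.eval_continuous φ).sub continuous_const).norm continuous_const
    obtain ⟨v, hv1, hv2⟩ := mem_closure_iff.mp hw _ hopen (fun φ _ => by
      have : w φ - w' φ = 0 := sub_self _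
      rw [this]; simpa using hη)
    obtain ⟨y, ⟨y', ⟨x, hx, rfl⟩, rfl⟩, rfl⟩ := hv2
    exact ⟨x, by simpa using hx, fun φ hφ => (hv1 φ hφ).le⟩
  have hSmid : ∀ Φ η, ∀ x ∈ S Φ η, ∀ y ∈ S Φ η, (2⁻¹ : 𝕜) • (x + y) ∈ S Φ η := by
    intro Φ η x hx y hy
    have h2 : ‖(2⁻¹ : 𝕜)‖ = 2⁻¹ := by simp
    refine ⟨?_, fun φ hφ => ?_⟩
    · rw [norm_smul, h2]
      linarith [norm_add_le x y, hx.1, hy.1]
    · have : φ (T ((2⁻¹ : 𝕜) • (x + y))) - w' φ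
          = (2⁻¹ : 𝕜) * ((φ (T x) - w' φ) + (φ (T y) - w' φ)) := by
        simp only [map_smul, map_add, smul_eq_mul]; ring
      rw [this, norm_mul, h2]
      linarith [norm_add_le (φ (T x) - w' φ) (φ (T y) - w' φ), hx.2 φ hφ, hy.2 φ hφ]
  have happrox : ∀ ε > 0, ∃ x : X, ‖NormedSpace.inclusionInDoubleDual 𝕜 Y (T x) - w'‖ ≤ 2 * ε := by
    intro ε hε
    obtain ⟨Q, hQ, hQT⟩ := hT ε hε
    obtain ⟨C, hC⟩ := hQ.bdd
    let I : Finset (StrongDual 𝕜 Y) × {η : ℝ // 0 < η} → ℝ := fun q => sInf (Q '' S q.1 q.2)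
    have hbb : ∀ q : Finset (StrongDual 𝕜 Y) × {η : ℝ // 0 < η}, BddBelow (Q '' S q.1 q.2) :=
      fun q => ⟨0, by rintro _ ⟨x, -, rfl⟩; exact hQ.nonneg x⟩
    have hIbdd : BddAbove (Set.range I) := by
      refine ⟨|C|, ?_⟩
      rintro _ ⟨q, rfl⟩
      obtain ⟨x, hx⟩ := hSne q.1 q.2 q.2.2
      refine (csInf_le (hbb q) ⟨x, hx, rfl⟩).trans ((hC x).trans ?_)
      have h1 : ‖x‖ ^ 2 ≤ 1 := pow_le_one₀ (norm_nonneg _) hx.1
      calc C * ‖x‖ ^ 2 ≤ |C| * ‖x‖ ^ 2 := by gcongr; exact le_abs_self C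
        _ ≤ |C| * 1 := by gcongr
        _ = |C| := mul_one _
    have : Nonempty (Finset (StrongDual 𝕜 Y) × {η : ℝ // 0 < η}) := ⟨(∅, ⟨1, one_pos⟩)⟩
    set d := iSup I with hd
    obtain ⟨q₀, hq₀⟩ : ∃ q, d - 4⁻¹ < I q := exists_lt_of_lt_ciSup (by linarith)
    have hpick : ∀ q : Finset (StrongDual 𝕜 Y) × {η : ℝ // 0 < η},
        ∃ x ∈ S q.1 q.2, Q x < d + 4⁻¹ := by
      intro q
      have h1 : I q < d + 4⁻¹ := lt_of_le_of_lt (le_ciSup hIbdd q) (by linarith)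
      obtain ⟨_, ⟨x, hx, rfl⟩, h2⟩ :=
        exists_lt_of_csInf_lt ((hSne q.1 q.2 q.2.2).image Q) h1
      exact ⟨x, hx, h2⟩
    obtain ⟨x₀, hx₀, hQ₀⟩ := hpick q₀
    refine ⟨x₀, ContinuousLinearMap.opNorm_le_bound _ (by positivity) fun φ => ?_⟩
    refine le_of_forall_pos_le_add fun η hη => ?_
    classical
    obtain ⟨x₁, hx₁, hQ₁⟩ := hpick (insert φ q₀.1, ⟨min η q₀.2, lt_min hη q₀.2.2⟩)
    have hx₁' : x₁ ∈ S q₀.1 q₀.2 :=
      ⟨hx₁.1, fun ψ hψ => (hx₁.2 ψ (Finset.mem_insert_of_mem hψ)).trans (min_le_right _ _)⟩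
    have hmid : d - 4⁻¹ < Q ((2⁻¹ : 𝕜) • (x₀ + x₁)) :=
      lt_of_lt_of_le hq₀ (csInf_le (hbb q₀) ⟨_, hSmid _ _ _ hx₀ _ hx₁', rfl⟩)
    have h2 : ‖(2⁻¹ : 𝕜)‖ = 2⁻¹ := by simp
    rw [hQ.smul, h2] at hmid
    have hp := hQ.par x₀ x₁
    have hsmall : Q ((2⁻¹ : 𝕜) • (x₀ - x₁)) < 1 := by
      rw [hQ.smul, h2]; linarith
    have hn : ‖(2⁻¹ : 𝕜) • (x₀ - x₁)‖ ≤ 1 := by
      rw [norm_smul, h2]
      linarith [norm_sub_le x₀ x₁, hx₀.1, hx₁.1]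
    have h3 := hQT _ hn hsmall
    rw [map_smul, norm_smul, h2] at h3
    have h4 : ‖φ (T x₁) - w' φ‖ ≤ η := (hx₁.2 φ (Finset.mem_insert_self _ _)).trans (min_le_left _ _)
    have h5 : ‖φ (T (x₀ - x₁))‖ ≤ ‖φ‖ * (2 * ε) :=
      (φ.le_opNorm _).trans (by gcongr; linarith)
    have h6 : (NormedSpace.inclusionInDoubleDual 𝕜 Y (T x₀) - w') φ
        = φ (T (x₀ - x₁)) + (φ (T x₁) - w' φ) := by
      simp only [sub_apply, NormedSpace.dual_def, map_sub]; ring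
    rw [h6]
    linarith [norm_add_le (φ (T (x₀ - x₁))) (φ (T x₁) - w' φ)]
  have hmem : w' ∈ Set.range (NormedSpace.inclusionInDoubleDualLi (E := Y) 𝕜) := by
    refine mem_range_of_approx (𝕜 := 𝕜) (Y := Y) (G := StrongDual 𝕜 (StrongDual 𝕜 Y))
      (NormedSpace.inclusionInDoubleDualLi (E := Y) 𝕜) w' fun ε hε => ?_
    obtain ⟨x, hx⟩ := happrox (ε / 4) (by positivity)
    exact ⟨T x, lt_of_le_of_lt hx (by linarith)⟩
  obtain ⟨y, hy⟩ := hmem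
  refine ⟨toWeakSpace 𝕜 Y y, ?_⟩
  apply WeakDual.toStrongDual.injective
  exact hy

/-- Weakly unconditionally Cauchy sequences. -/
def WUC (𝕜 : Type*) [RCLike 𝕜] {X : Type*} [NormedAddCommGroup X] [NormedSpace 𝕜 X]
    (y : ℕ → X) : Prop :=
  ∃ C : ℝ, ∀ (c : ℕ → 𝕜) (m : ℕ), (∀ k, ‖c k‖ ≤ 1) → ‖∑ k ∈ Finset.range m, c k • y k‖ ≤ C

/-- Families of functionals that tend to zero uniformly on such sequences. -/
def UC (H : Set (StrongDual 𝕜 X)) : Prop :=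
  ∀ y : ℕ → X, WUC 𝕜 y → ∀ ε > 0, ∀ᶠ k in atTop, ∀ h ∈ H, ‖h (y k)‖ ≤ ε

lemma exists_unit (a : 𝕜) : ∃ c : 𝕜, ‖c‖ ≤ 1 ∧ c * a = ‖a‖ := by
  by_cases ha : a = 0
  · exact ⟨0, by simp, by simp [ha]⟩
  · refine ⟨‖a‖ / a, ?_, by field_simp⟩
    rw [norm_div]
    simp [div_self (norm_ne_zero_iff.mpr ha)]

lemma WUC.map {y : ℕ → X'} (hy : WUC 𝕜 y) (S : X' →L[𝕜] X) : WUC 𝕜 (fun k => S (y k)) := by
  obtain ⟨C, hC⟩ := hy
  refine ⟨‖S‖ * C, fun c m hc => ?_⟩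
  have : ∑ k ∈ Finset.range m, c k • S (y k) = S (∑ k ∈ Finset.range m, c k • y k) := by
    simp [map_sum]
  rw [this]
  exact (S.le_opNorm _).trans (by gcongr; exact hC c m hc)

lemma WUC.tendsto {y : ℕ → X} (hy : WUC 𝕜 y) (φ : StrongDual 𝕜 X) :
    Tendsto (fun k => φ (y k)) atTop (𝓝 0) := by
  obtain ⟨C, hC⟩ := hy
  choose c hc1 hc2 using fun k => exists_unit (φ (y k))
  have hs : Summable fun k => ‖φ (y k)‖ := by
    refine summable_of_sum_range_le (c := ‖φ‖ * C) (fun k => norm_nonneg _) fun m => ?_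
    have h1 : φ (∑ k ∈ Finset.range m, c k • y k)
        = ((∑ k ∈ Finset.range m, ‖φ (y k)‖ : ℝ) : 𝕜) := by
      simp [map_sum, hc2]
    have h2 := (φ.le_opNorm (∑ k ∈ Finset.range m, c k • y k)).trans
      (mul_le_mul_of_nonneg_left (hC c m hc1) (norm_nonneg _))
    rw [h1, RCLike.norm_ofReal] at h2
    exact (le_abs_self _).trans h2
  exact tendsto_zero_iff_norm_tendsto_zero.mpr hs.tendsto_atTop_zero

lemma WUC.tendsto_weak {y : ℕ → X} (hy : WUC 𝕜 y) :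
    Tendsto (fun k => toWeakSpace 𝕜 X (y k)) atTop (𝓝 (toWeakSpace 𝕜 X 0)) := by
  rw [(NormedSpace.isEmbedding_inclusionInDoubleDualWeak 𝕜 X).tendsto_nhds_iff,
    tendsto_iff_forall_eval_tendsto_topDualPairing]
  intro φ
  have h := hy.tendsto φ
  rw [← map_zero φ] at h
  exact h

lemma UC.comp {H : Set (StrongDual 𝕜 X)} (hH : UC H) (S : X' →L[𝕜] X) :
    UC ((fun h : StrongDual 𝕜 X => (h.comp S : StrongDual 𝕜 X')) '' H) := by
  intro y hy ε hε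
  filter_upwards [hH _ (hy.map S) ε hε] with k hk
  rintro _ ⟨h, hh, rfl⟩
  exact hk h hh

lemma uc_of_cc {Y : Type*} [NormedAddCommGroup Y] [NormedSpace 𝕜 Y] (T : X →L[𝕜] Y)
    (hT : CompletelyContinuous 𝕜 T) :
    UC ((fun φ : StrongDual 𝕜 Y => (φ.comp T : StrongDual 𝕜 X)) '' Metric.closedBall 0 1) := by
  intro y hy ε hε
  obtain ⟨b, hb⟩ := hT y 0 hy.tendsto_weak
  have hb0 : b = 0 := by
    refine SeparatingDual.eq_zero_of_forall_dual_eq_zero (R := 𝕜) fun φ => ?_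
    exact tendsto_nhds_unique ((φ.continuous.tendsto b).comp hb) (hy.tendsto (φ.comp T))
  rw [hb0] at hb
  filter_upwards [(tendsto_zero_iff_norm_tendsto_zero.mp hb).eventually (ge_mem_nhds hε)] with k hk
  rintro _ ⟨φ, hφ, rfl⟩
  have h1 : ‖φ‖ ≤ 1 := by simpa using hφ
  calc ‖φ (T (y k))‖ ≤ ‖φ‖ * ‖T (y k)‖ := φ.le_opNorm _
    _ ≤ 1 * ε := by gcongr
    _ = ε := one_mul _

lemma weaklyCompact_singleton (x : X) : WeaklyCompact 𝕜 ({x} : Set X) := by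
  unfold WeaklyCompact
  rw [Set.image_singleton]
  exact isCompact_singleton

lemma bdd_of_mackey [CompleteSpace X] {H : Set (StrongDual 𝕜 X)} (hH : MackeyCompact 𝕜 H) :
    ∃ M : ℝ, ∀ h ∈ H, ‖h‖ ≤ M := by
  have h1 : ∀ x : X, ∃ C, ∀ h : H, ‖(h : StrongDual 𝕜 X) x‖ ≤ C := by
    intro x
    have hc := (UniformOnFun.uniformContinuous_eval_of_mem 𝕜
      {L : Set X | WeaklyCompact 𝕜 L} (Set.mem_singleton x)
      (weaklyCompact_singleton x)).continuous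
    obtain ⟨C, hC⟩ := (IsCompact.image hH hc).isBounded.exists_norm_le
    exact ⟨C, fun h => hC _ ⟨_, ⟨h, h.2, rfl⟩, rfl⟩⟩
  obtain ⟨M, hM⟩ := banach_steinhaus (g := fun h : H => (h : StrongDual 𝕜 X)) h1
  exact ⟨M, fun h hh => hM ⟨h, hh⟩⟩

lemma uc_of_mackey {H : Set (StrongDual 𝕜 X)} (hH : MackeyCompact 𝕜 H) : UC H := by
  intro y hy ε hε
  set L : Set X := insert 0 (Set.range y) with hL
  have hLw : WeaklyCompact 𝕜 L := by
    unfold WeaklyCompact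
    rw [hL, Set.image_insert_eq, ← Set.range_comp]
    exact hy.tendsto_weak.isCompact_insert_range
  have hc := (UniformOnFun.uniformContinuous_restrict X 𝕜
      {L : Set X | WeaklyCompact 𝕜 L} hLw).continuous
  have hK := (IsCompact.image hH hc).totallyBounded
  rw [Set.image_image] at hK
  obtain ⟨t, ht1, ht2, ht3⟩ := (EMetric.totallyBounded_iff'.mp hK) (ENNReal.ofReal (ε / 2))
    (by simpa using hε)
  have h1 : ∀ g ∈ t, ∀ᶠ k in atTop, ‖UniformFun.toFun g ⟨y k, by simp [hL]⟩‖ ≤ ε / 2 := by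
    intro g hg
    obtain ⟨h, -, rfl⟩ := ht1 hg
    exact (tendsto_zero_iff_norm_tendsto_zero.mp (hy.tendsto h)).eventually
      (ge_mem_nhds (half_pos hε))
  filter_upwards [(Filter.eventually_all_finite ht2).mpr h1] with k hk h hh
  obtain ⟨g, hg, hg2⟩ := Set.mem_iUnion₂.mp (ht3 ⟨h, hh, rfl⟩)
  have h2 := lt_of_le_of_lt (UniformFun.edist_eval_le (x := (⟨y k, by simp [hL]⟩ : L))) hg2
  rw [edist_lt_ofReal, dist_eq_norm] at h2
  have h3 := hk g hg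
  have h4 : ‖h (y k) - UniformFun.toFun g ⟨y k, by simp [hL]⟩‖ < ε / 2 := h2
  linarith [norm_le_norm_sub_add (h (y k)) (UniformFun.toFun g ⟨y k, by simp [hL]⟩)]

end Pool.Agent.P.MP_997199_an
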