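import Mathlib
import Pool.Agent.P.MP_997199_an.Quad

/-!
An elementary proof that bounded unconditionally converging families of functionals on the space
of bounded functions are controlled by quadratic functionals.
-/

namespace Pool.Agent.P.MP_997199_an

open Filter Topology

variable {𝕜 : Type*} [RCLike 𝕜]
variable {V : Type*} [NormedAddCommGroup V] [NormedSpace 𝕜 V] {Γ : Type*}

/-- `V` is the space of bounded functions on `Γ`, through the evaluations `ev`. -/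
structure IsLinf (ev : Γ → StrongDual 𝕜 V) : Prop where
  le_norm : ∀ t f, ‖ev t f‖ ≤ ‖f‖
  norm_le : ∀ f C, 0 ≤ C → (∀ t, ‖ev t f‖ ≤ C) → ‖f‖ ≤ C
  surj : ∀ (g : Γ → 𝕜) (C : ℝ), (∀ t, ‖g t‖ ≤ C) → ∃ f, ∀ t, ev t f = g t

/-- Bounded nonnegative functions. -/
def Bd (a : Γ → ℝ) : Prop := (∀ t, 0 ≤ a t) ∧ ∃ C, ∀ t, a t ≤ C

lemma Bd.add {a b : Γ → ℝ} (ha : Bd a) (hb : Bd b) : Bd (fun t => a t + b t) := by
  obtain ⟨C, hC⟩ := ha.2
  obtain ⟨D, hD⟩ := hb.2
  exact ⟨fun t => add_nonneg (ha.1 t) (hb.1 t), C + D, fun t => add_le_add (hC t) (hD t)⟩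

lemma Bd.const_mul {a : Γ → ℝ} (ha : Bd a) {c : ℝ} (hc : 0 ≤ c) : Bd (fun t => c * a t) := by
  obtain ⟨C, hC⟩ := ha.2
  exact ⟨fun t => mul_nonneg hc (ha.1 t), c * C, fun t => mul_le_mul_of_nonneg_left (hC t) hc⟩

lemma Bd.ind (E : Set Γ) : Bd (E.indicator (fun _ => (1 : ℝ))) := by
  classical
  refine ⟨fun t => ?_, 1, fun t => ?_⟩ <;> rw [Set.indicator_apply] <;> split_ifs <;> norm_num

/-- The modulus of a functional. -/
noncomputable def vm (ev : Γ → StrongDual 𝕜 V) (μ : StrongDual 𝕜 V) (a : Γ → ℝ) : ℝ :=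
  sSup ((fun g => ‖μ g‖) '' {g | ∀ t, ‖ev t g‖ ≤ a t})

variable {ev : Γ → StrongDual 𝕜 V}

lemma IsLinf.ext (hev : IsLinf ev) {f g : V} (h : ∀ t, ev t f = ev t g) : f = g := by
  have := hev.norm_le (f - g) 0 le_rfl fun t => by simp [h t]
  exact sub_eq_zero.mp (norm_le_zero_iff.mp this)

lemma IsLinf.le_vm (hev : IsLinf ev) (μ : StrongDual 𝕜 V) {a : Γ → ℝ} (ha : Bd a) {g : V}
    (hg : ∀ t, ‖ev t g‖ ≤ a t) : ‖μ g‖ ≤ vm ev μ a := by
  obtain ⟨C, hC⟩ := ha.2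
  refine le_csSup ⟨‖μ‖ * |C|, ?_⟩ ⟨g, hg, rfl⟩
  rintro _ ⟨f, hf, rfl⟩
  refine (μ.le_opNorm f).trans ?_
  gcongr
  exact hev.norm_le f _ (abs_nonneg C) fun t => (hf t).trans ((hC t).trans (le_abs_self C))

lemma vm_le (μ : StrongDual 𝕜 V) {a : Γ → ℝ} (ha : Bd a) {c : ℝ}
    (h : ∀ g : V, (∀ t, ‖ev t g‖ ≤ a t) → ‖μ g‖ ≤ c) : vm ev μ a ≤ c := by
  refine csSup_le ⟨_, 0, fun t => by simpa using ha.1 t, rfl⟩ ?_
  rintro _ ⟨f, hf, rfl⟩
  exact h f hf

lemma IsLinf.vm_nonneg (hev : IsLinf ev) (μ : StrongDual 𝕜 V) {a : Γ → ℝ} (ha : Bd a) :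
    0 ≤ vm ev μ a :=
  (norm_nonneg _).trans (hev.le_vm μ ha (g := 0) fun t => by simpa using ha.1 t)

lemma IsLinf.vm_mono (hev : IsLinf ev) (μ : StrongDual 𝕜 V) {a b : Γ → ℝ} (ha : Bd a)
    (hb : Bd b) (h : ∀ t, a t ≤ b t) : vm ev μ a ≤ vm ev μ b :=
  vm_le μ ha fun _ hg => hev.le_vm μ hb fun t => (hg t).trans (h t)

lemma IsLinf.vm_superadd (hev : IsLinf ev) (μ : StrongDual 𝕜 V) {a b : Γ → ℝ} (ha : Bd a)
    (hb : Bd b) : vm ev μ a + vm ev μ b ≤ vm ev μ (fun t => a t + b t) := by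
  have h1 : ∀ g : V, (∀ t, ‖ev t g‖ ≤ a t) → ∀ g' : V, (∀ t, ‖ev t g'‖ ≤ b t) →
      ‖μ g‖ + ‖μ g'‖ ≤ vm ev μ (fun t => a t + b t) := by
    intro g hg g' hg'
    obtain ⟨c, hc1, hc2⟩ := exists_unit (μ g)
    obtain ⟨c', hc1', hc2'⟩ := exists_unit (μ g')
    have h2 := hev.le_vm μ (ha.add hb) (g := c • g + c' • g') fun t => by
      simp only [map_add, map_smul, smul_eq_mul]
      refine (norm_add_le _ _).trans ?_
      rw [norm_mul, norm_mul]
      nlinarith [hg t, hg' t, norm_nonneg (ev t g), norm_nonneg (ev t g'), norm_nonneg c,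
        norm_nonneg c']
    have h3 : μ (c • g + c' • g') = ((‖μ g‖ + ‖μ g'‖ : ℝ) : 𝕜) := by
      simp [hc2, hc2']
    rw [h3, RCLike.norm_ofReal] at h2
    exact (le_abs_self _).trans h2
  have h2 : vm ev μ a ≤ vm ev μ (fun t => a t + b t) - vm ev μ b := by
    refine vm_le μ ha fun g hg => ?_
    have : vm ev μ b ≤ vm ev μ (fun t => a t + b t) - ‖μ g‖ :=
      vm_le μ hb fun g' hg' => by linarith [h1 g hg g' hg']
    linarith
  linarith

lemma IsLinf.vm_subadd (hev : IsLinf ev) (μ : StrongDual 𝕜 V) {a b : Γ → ℝ} (ha : Bd a)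
    (hb : Bd b) : vm ev μ (fun t => a t + b t) ≤ vm ev μ a + vm ev μ b := by
  refine vm_le μ (ha.add hb) fun g hg => ?_
  have hq : ∀ t, 0 ≤ a t / (a t + b t) ∧ a t / (a t + b t) ≤ 1 := fun t =>
    ⟨div_nonneg (ha.1 t) (add_nonneg (ha.1 t) (hb.1 t)),
      div_le_one_of_le₀ (by linarith [hb.1 t]) (add_nonneg (ha.1 t) (hb.1 t))⟩
  obtain ⟨g₁, hg₁⟩ := hev.surj (fun t => ((a t / (a t + b t) : ℝ) : 𝕜) * ev t g) ‖g‖ fun t => by
    rw [norm_mul, RCLike.norm_ofReal, abs_of_nonneg (hq t).1]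
    nlinarith [hev.le_norm t g, hq t, norm_nonneg (ev t g)]
  have h1 : ‖μ g₁‖ ≤ vm ev μ a := hev.le_vm μ ha fun t => by
    rw [hg₁, norm_mul, RCLike.norm_ofReal, abs_of_nonneg (hq t).1]
    rcases (add_nonneg (ha.1 t) (hb.1 t)).eq_or_lt with h | h
    · rw [← h]; simpa using ha.1 t
    · calc a t / (a t + b t) * ‖ev t g‖ ≤ a t / (a t + b t) * (a t + b t) := by
            gcongr; exacts [(hq t).1, hg t]
        _ = a t := by field_simp
  have h2 : ‖μ (g - g₁)‖ ≤ vm ev μ b := hev.le_vm μ hb fun t => by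
    have h3 : ev t (g - g₁) = ((1 - a t / (a t + b t) : ℝ) : 𝕜) * ev t g := by
      rw [map_sub, hg₁]; push_cast; ring
    rw [h3, norm_mul, RCLike.norm_ofReal, abs_of_nonneg (by linarith [(hq t).2])]
    rcases (add_nonneg (ha.1 t) (hb.1 t)).eq_or_lt with h | h
    · have := hg t
      rw [← h] at this
      have h4 : ‖ev t g‖ = 0 := le_antisymm this (norm_nonneg _)
      rw [h4]; simpa using hb.1 t
    · calc (1 - a t / (a t + b t)) * ‖ev t g‖ ≤ (1 - a t / (a t + b t)) * (a t + b t) := by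
            gcongr; exacts [by linarith [(hq t).2], hg t]
        _ = b t := by field_simp; ring
  have h3 : μ g = μ g₁ + μ (g - g₁) := by simp
  rw [h3]
  linarith [norm_add_le (μ g₁) (μ (g - g₁))]

lemma IsLinf.vm_smul_le (hev : IsLinf ev) (μ : StrongDual 𝕜 V) {a : Γ → ℝ} (ha : Bd a) {c : ℝ}
    (hc : 0 < c) : vm ev μ (fun t => c * a t) ≤ c * vm ev μ a := by
  refine vm_le μ (ha.const_mul hc.le) fun g hg => ?_
  have h1 := hev.le_vm μ ha (g := ((c⁻¹ : ℝ) : 𝕜) • g) fun t => by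
    rw [map_smul, smul_eq_mul, norm_mul, RCLike.norm_ofReal, abs_of_pos (inv_pos.mpr hc),
      inv_mul_le_iff₀ hc]
    exact hg t
  rwa [map_smul, smul_eq_mul, norm_mul, RCLike.norm_ofReal, abs_of_pos (inv_pos.mpr hc),
    inv_mul_le_iff₀ hc] at h1

lemma IsLinf.vm_smul (hev : IsLinf ev) (μ : StrongDual 𝕜 V) {a : Γ → ℝ} (ha : Bd a) {c : ℝ}
    (hc : 0 ≤ c) : vm ev μ (fun t => c * a t) = c * vm ev μ a := by
  rcases hc.eq_or_lt with h | h
  · subst h
    refine le_antisymm ?_ (by simpa using hev.vm_nonneg μ (ha.const_mul le_rfl))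
    refine vm_le μ (ha.const_mul le_rfl) fun g hg => ?_
    have : ‖g‖ ≤ 0 := hev.norm_le g 0 le_rfl fun t => by simpa using hg t
    rw [norm_le_zero_iff.mp this]; simp
  · refine le_antisymm (hev.vm_smul_le μ ha h) ?_
    have h1 := hev.vm_smul_le μ (ha.const_mul hc) (inv_pos.mpr h)
    have h2 : (fun t => c⁻¹ * (c * a t)) = a := by
      funext t; field_simp
    rwa [h2, le_inv_mul_iff₀ h] at h1

lemma IsLinf.bd_sq (hev : IsLinf ev) (f : V) : Bd (fun t => ‖ev t f‖ ^ 2) :=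
  ⟨fun _ => by positivity, ‖f‖ ^ 2,
    fun t => pow_le_pow_left₀ (norm_nonneg _) (hev.le_norm t f) 2⟩

lemma IsLinf.isQ (hev : IsLinf ev) (μ : StrongDual 𝕜 V) :
    IsQ 𝕜 (fun f : V => vm ev μ (fun t => ‖ev t f‖ ^ 2)) := by
  refine ⟨fun f => hev.vm_nonneg μ (hev.bd_sq f), ⟨‖μ‖, fun f => ?_⟩, fun f g => ?_,
    fun c f => ?_⟩
  · refine vm_le μ (hev.bd_sq f) fun g hg => (μ.le_opNorm g).trans ?_
    gcongr
    exact hev.norm_le g _ (by positivity) fun t =>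
      (hg t).trans (pow_le_pow_left₀ (norm_nonneg _) (hev.le_norm t f) 2)
  · have h1 := hev.vm_superadd μ (hev.bd_sq (f + g)) (hev.bd_sq (f - g))
    have h2 := hev.vm_subadd μ ((hev.bd_sq f).const_mul zero_le_two)
      ((hev.bd_sq g).const_mul zero_le_two)
    rw [hev.vm_smul μ (hev.bd_sq f) zero_le_two, hev.vm_smul μ (hev.bd_sq g) zero_le_two] at h2
    have h3 : (fun t => ‖ev t (f + g)‖ ^ 2 + ‖ev t (f - g)‖ ^ 2)
        = fun t => 2 * ‖ev t f‖ ^ 2 + 2 * ‖ev t g‖ ^ 2 := by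
      funext t
      rw [map_add, map_sub]
      have := parallelogram_law_with_norm 𝕜 (ev t f) (ev t g)
      linarith
    rw [h3] at h1
    linarith
  · rw [← hev.vm_smul μ (hev.bd_sq f) (by positivity)]
    congr 1
    funext t
    rw [map_smul, smul_eq_mul, norm_mul, mul_pow]

/-- The variation of a functional on a set. -/
noncomputable def nu (ev : Γ → StrongDual 𝕜 V) (μ : StrongDual 𝕜 V) (E : Set Γ) : ℝ :=
  vm ev μ (E.indicator fun _ => 1)

lemma IsLinf.nu_mono (hev : IsLinf ev) (μ : StrongDual 𝕜 V) {E F : Set Γ} (h : E ⊆ F) :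
    nu ev μ E ≤ nu ev μ F :=
  hev.vm_mono μ (Bd.ind E) (Bd.ind F) fun t =>
    Set.indicator_le_indicator_of_subset h (fun _ => zero_le_one) t

lemma IsLinf.nu_union (hev : IsLinf ev) (μ : StrongDual 𝕜 V) (E F : Set Γ) :
    nu ev μ (E ∪ F) ≤ nu ev μ E + nu ev μ F := by
  classical
  refine le_trans ?_ (hev.vm_subadd μ (Bd.ind E) (Bd.ind F))
  refine hev.vm_mono μ (Bd.ind _) ((Bd.ind E).add (Bd.ind F)) fun t => ?_
  simp only [Set.indicator_apply, Set.mem_union]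
  by_cases h1 : t ∈ E <;> by_cases h2 : t ∈ F <;> simp [h1, h2]

lemma IsLinf.nu_empty (hev : IsLinf ev) (μ : StrongDual 𝕜 V) : nu ev μ ∅ ≤ 0 := by
  refine vm_le μ (Bd.ind _) fun g hg => ?_
  have : ‖g‖ ≤ 0 := hev.norm_le g 0 le_rfl fun t => by simpa using hg t
  rw [norm_le_zero_iff.mp this]; simp

lemma IsLinf.nu_biUnion (hev : IsLinf ev) (μ : StrongDual 𝕜 V) (s : Finset ℕ) (E : ℕ → Set Γ) :
    nu ev μ (⋃ i ∈ s, E i) ≤ ∑ i ∈ s, nu ev μ (E i) := by
  induction s using Finset.induction_on with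
  | empty => simpa using hev.nu_empty μ
  | insert a s ha ih =>
    rw [Finset.set_biUnion_insert, Finset.sum_insert ha]
    exact (hev.nu_union μ _ _).trans (by linarith)

/-- Monotone sequences of sets are uniformly Cauchy. -/
lemma IsLinf.cauchy (hev : IsLinf ev) {H : Set (StrongDual 𝕜 V)} (hH : UC H) (D : ℕ → Set Γ)
    (hD : Monotone D) {η : ℝ} (hη : 0 < η) :
    ∃ m₀, ∀ m, m₀ ≤ m → ∀ h ∈ H, nu ev h (D m \ D m₀) ≤ η := by
  classical
  by_contra hcon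
  push Not at hcon
  have h1 : ∀ m₀, ∃ m, m₀ ≤ m ∧ ∃ h ∈ H, ∃ g : V,
      (∀ t, ‖ev t g‖ ≤ (D m \ D m₀).indicator (fun _ => (1 : ℝ)) t) ∧ η < ‖h g‖ := by
    intro m₀
    obtain ⟨m, hm, h, hh, hlt⟩ := hcon m₀
    refine ⟨m, hm, h, hh, ?_⟩
    by_contra h2
    push Not at h2
    exact absurd (vm_le h (Bd.ind _) h2) (not_le.mpr hlt)
  choose nx hnx hf hfH g hg hgη using h1
  let M : ℕ → ℕ := fun k => nx^[k] 0
  have hM : ∀ k, M (k + 1) = nx (M k) := fun k => Function.iterate_succ_apply' nx k 0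
  have hMmono : Monotone M := monotone_nat_of_le_succ fun k => by rw [hM]; exact hnx _
  have hw : WUC 𝕜 (fun k => g (M k)) := by
    refine ⟨1, fun c m hc => hev.norm_le _ _ zero_le_one fun t => ?_⟩
    have h2 : ∀ m, ∑ k ∈ Finset.range m, (D (M (k + 1)) \ D (M k)).indicator (fun _ => (1 : ℝ)) t
        ≤ (D (M m)).indicator (fun _ => (1 : ℝ)) t := by
      intro m
      induction m with
      | zero => simpa using (Bd.ind _).1 t
      | succ m ih =>
        rw [Finset.sum_range_succ]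
        have h3 : D (M m) ⊆ D (M (m + 1)) := hD (hMmono (Nat.le_succ m))
        simp only [Set.indicator_apply, Set.mem_sdiff] at ih ⊢
        by_cases h4 : t ∈ D (M m)
        · simpa [h4, h3 h4] using ih
        · by_cases h5 : t ∈ D (M (m + 1))
          · simp only [h4, h5, if_false] at ih ⊢
            simpa using ih
          · simp only [h4, h5, if_false] at ih ⊢
            simpa using ih
    rw [map_sum]
    refine (norm_sum_le _ _).trans (le_trans (Finset.sum_le_sum fun k _ => ?_) ((h2 m).trans ?_))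
    · rw [map_smul, smul_eq_mul, norm_mul, hM]
      nlinarith [hg (M k) t, hc k, norm_nonneg (ev t (g (M k))), norm_nonneg (c k)]
    · rw [Set.indicator_apply]; split_ifs <;> norm_num
  obtain ⟨k, hk⟩ := (hH _ hw η hη).exists
  exact absurd (hk _ (hfH (M k))) (not_le.mpr (hgη (M k)))

lemma sum_Ico_le {δ : ℕ → ℝ} (h0 : ∀ j, 0 ≤ δ j) (h : ∀ j, 2 * δ (j + 1) ≤ δ j) (l n : ℕ) :
    ∑ i ∈ Finset.Ico l (l + n), δ i ≤ 2 * δ l := by
  have : ∑ i ∈ Finset.Ico l (l + n), δ i + 2 * δ (l + n) ≤ 2 * δ l := by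
    induction n with
    | zero => simp
    | succ n ih =>
      rw [← add_assoc, Finset.sum_Ico_succ_top (Nat.le_add_right l n)]
      linarith [h (l + n)]
  linarith [h0 (l + n)]

/-- A gliding hump argument: existence of control functionals on sets. -/
lemma IsLinf.control (hev : IsLinf ev) {H : Set (StrongDual 𝕜 V)} (hH : UC H) {ε : ℝ}
    (hε : 0 < ε) : ∃ s : Finset (StrongDual 𝕜 V), ∃ δ > 0, ∀ E : Set Γ,
      (∀ μ ∈ s, nu ev μ E ≤ δ) → ∀ h ∈ H, nu ev h E ≤ ε := by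
  classical
  by_contra hcon
  push Not at hcon
  obtain ⟨f, hP, hr⟩ := exists_seq_of_forall_finset_exists
    (fun q : Set Γ × StrongDual 𝕜 V × ℝ =>
      q.2.1 ∈ H ∧ ε < nu ev q.2.1 q.1 ∧ 0 < q.2.2 ∧ q.2.2 ≤ ε / 8)
    (fun q q' => nu ev q.2.1 q'.1 ≤ q'.2.2 ∧ 2 * q'.2.2 ≤ q.2.2) (by
      intro s hs
      obtain ⟨δ, hδ1, hδ2, hδ3⟩ : ∃ δ : ℝ, 0 < δ ∧ δ ≤ ε / 8 ∧ ∀ q ∈ s, 2 * δ ≤ q.2.2 := by
        induction s using Finset.induction_on with
        | empty => exact ⟨ε / 8, by positivity, le_rfl, by simp⟩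
        | insert a s ha ih =>
          obtain ⟨δ, h1, h2, h3⟩ := ih fun x hx => hs x (Finset.mem_insert_of_mem hx)
          have h4 := (hs a (Finset.mem_insert_self _ _)).2.2.1
          refine ⟨min δ (a.2.2 / 2), by positivity, (min_le_left _ _).trans h2, fun q hq => ?_⟩
          rcases Finset.mem_insert.mp hq with rfl | hq
          · linarith [min_le_right δ (q.2.2 / 2)]
          · linarith [min_le_left δ (a.2.2 / 2), h3 q hq]
      obtain ⟨E, hE, h, hh, hlt⟩ := hcon (s.image fun q => q.2.1) δ hδ1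
      exact ⟨(E, h, δ), ⟨hh, hlt, hδ1, hδ2⟩,
        fun q hq => ⟨hE _ (Finset.mem_image_of_mem _ hq), hδ3 q hq⟩⟩)
  set E : ℕ → Set Γ := fun j => (f j).1 with hE
  set h : ℕ → StrongDual 𝕜 V := fun j => (f j).2.1 with hh
  set δ : ℕ → ℝ := fun j => (f j).2.2 with hδ
  have hδ0 : ∀ j, 0 < δ j := fun j => (hP j).2.2.1
  have hδ8 : ∀ j, δ j ≤ ε / 8 := fun j => (hP j).2.2.2
  have hδs : ∀ j, 2 * δ (j + 1) ≤ δ j := fun j => (hr j (j + 1) (Nat.lt_succ_self j)).2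
  let F : ℕ → ℕ → Set Γ := fun j n => ⋃ l ∈ Finset.Ico j (j + n), E l
  have hFmono : ∀ j, Monotone (F j) := by
    intro j n n' hn
    exact Set.biUnion_subset_biUnion_left
      (Finset.Ico_subset_Ico_right (Nat.add_le_add_left hn j))
  choose m hm using fun j => hev.cauchy hH (F j) (hFmono j) (hδ0 j)
  let P : ℕ → Set Γ := fun j => ⋃ i ∈ Finset.range (j + 1), (F i (m i))ᶜ
  have hPmono : Monotone P := by
    intro j j' hj
    exact Set.biUnion_subset_biUnion_left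
      (Finset.range_subset_range.mpr (Nat.succ_le_succ hj))
  obtain ⟨j, hj⟩ := hev.cauchy hH P hPmono (by positivity : 0 < ε / 4)
  have hj1 := hj (j + 1) (Nat.le_succ j) (h j) (hP j).1
  set N := j + 1 + ∑ i ∈ Finset.range (j + 1), m i with hN
  have hsub : E j ⊆ (F (j + 1) (m (j + 1)) ∪ (P (j + 1) \ P j)) ∪
      ⋃ i ∈ Finset.range (j + 1), (F i N \ F i (m i)) := by
    intro t ht
    by_cases h1 : t ∈ P j
    · right
      obtain ⟨i, hi, h2⟩ := Set.mem_iUnion₂.mp h1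
      refine Set.mem_iUnion₂.mpr ⟨i, hi, ?_, h2⟩
      have hi' := Finset.mem_range.mp hi
      refine Set.mem_iUnion₂.mpr ⟨j, Finset.mem_Ico.mpr ⟨by omega, by omega⟩, ht⟩
    · left
      by_cases h2 : t ∈ F (j + 1) (m (j + 1))
      · exact Or.inl h2
      · exact Or.inr ⟨Set.mem_iUnion₂.mpr ⟨j + 1, by simp, h2⟩, h1⟩
  have h1 : nu ev (h j) (F (j + 1) (m (j + 1))) ≤ ε / 4 := by
    refine (hev.nu_biUnion _ _ _).trans ?_
    refine le_trans (Finset.sum_le_sum fun l hl => ?_)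
      ((sum_Ico_le (fun j => (hδ0 j).le) hδs (j + 1) (m (j + 1))).trans (by linarith [hδ8 (j + 1)]))
    exact (hr j l (Finset.mem_Ico.mp hl).1).1
  have h2 : nu ev (h j) (⋃ i ∈ Finset.range (j + 1), (F i N \ F i (m i))) ≤ ε / 4 := by
    refine (hev.nu_biUnion _ _ _).trans ?_
    have h3 := sum_Ico_le (fun j => (hδ0 j).le) hδs 0 (j + 1)
    rw [zero_add, ← Finset.range_eq_Ico] at h3
    refine le_trans (Finset.sum_le_sum fun i hi => ?_) (h3.trans (by linarith [hδ8 0]))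
    refine hm i N ?_ _ (hP j).1
    have := Finset.single_le_sum (f := m) (fun _ _ => Nat.zero_le _) hi
    omega
  have h3 := (hev.nu_mono (h j) hsub).trans (hev.nu_union _ _ _)
  have h4 := hev.nu_union (h j) (F (j + 1) (m (j + 1))) (P (j + 1) \ P j)
  have h5 : ε < nu ev (h j) (E j) := (hP j).2.1
  linarith

/-- The core lemma. -/
theorem IsLinf.ctrl (hev : IsLinf ev) {H : Set (StrongDual 𝕜 V)} (hH : UC H) {M : ℝ}
    (hM : ∀ h ∈ H, ‖h‖ ≤ M) : Ctrl H := by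
  classical
  intro ε hε
  obtain ⟨s, δ, hδ, hs⟩ := hev.control hH (half_pos hε)
  set θ : ℝ := ε / (2 * (|M| + 1)) with hθ
  have hθ0 : 0 < θ := by positivity
  refine ⟨fun f => (θ ^ 2 * δ)⁻¹ * ∑ μ ∈ s, vm ev μ (fun t => ‖ev t f‖ ^ 2),
    (IsQ.sum s fun μ _ => hev.isQ μ).const_mul (by positivity), fun f hf hQ h hh => ?_⟩
  set E : Set Γ := {t | θ < ‖ev t f‖} with hE
  have h1 : nu ev h E ≤ ε / 2 := by
    refine hs E (fun μ hμ => ?_) h hh
    have h2 : vm ev μ (fun t => ‖ev t f‖ ^ 2) ≤ ∑ μ ∈ s, vm ev μ (fun t => ‖ev t f‖ ^ 2) :=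
      Finset.single_le_sum (f := fun μ => vm ev μ (fun t => ‖ev t f‖ ^ 2))
        (fun μ _ => hev.vm_nonneg μ (hev.bd_sq f)) hμ
    have h3 : θ ^ 2 * nu ev μ E ≤ vm ev μ (fun t => ‖ev t f‖ ^ 2) := by
      unfold nu
      rw [← hev.vm_smul μ (Bd.ind E) (by positivity)]
      refine hev.vm_mono μ ((Bd.ind E).const_mul (by positivity)) (hev.bd_sq f) fun t => ?_
      rw [Set.indicator_apply]
      split_ifs with ht
      · rw [mul_one]; exact pow_le_pow_left₀ hθ0.le (le_of_lt ht) 2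
      · rw [mul_zero]; positivity
    rw [inv_mul_lt_iff₀ (by positivity), mul_one] at hQ
    have h4 : θ ^ 2 * nu ev μ E < θ ^ 2 * δ := by linarith
    exact (lt_of_mul_lt_mul_left h4 (by positivity)).le
  obtain ⟨g, hg⟩ := hev.surj (fun t => if t ∈ E then ev t f else 0) ‖f‖ fun t => by
    split_ifs
    · exact hev.le_norm t f
    · simp
  have h2 : ‖h g‖ ≤ nu ev h E := hev.le_vm h (Bd.ind E) fun t => by
    rw [hg, Set.indicator_apply]
    split_ifs
    · exact (hev.le_norm t f).trans hf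
    · simp
  have h3 : ‖f - g‖ ≤ θ := hev.norm_le _ _ hθ0.le fun t => by
    rw [map_sub, hg]
    split_ifs with ht
    · simpa using hθ0.le
    · simpa [hE] using ht
  have h4 : ‖h (f - g)‖ ≤ ε / 2 := by
    calc ‖h (f - g)‖ ≤ ‖h‖ * ‖f - g‖ := h.le_opNorm _
      _ ≤ (|M| + 1) * θ := by
          gcongr; linarith [hM h hh, le_abs_self M]
      _ = ε / 2 := by rw [hθ]; field_simp
  have h5 : h f = h g + h (f - g) := by simp
  rw [h5]
  linarith [norm_add_le (h g) (h (f - g))]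

end Pool.Agent.P.MP_997199_an
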