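import Mathlib
import Pool.Agent.P.MP_997199_an.Quad

/-!
A quantitative Schur type lemma: weakly compact sets of bounded functions that are close to
absolutely summable Rademacher type series have uniformly small tails.
-/

namespace Pool.Agent.P.MP_997199_an

open Filter Topology

variable {𝕜 : Type*} [RCLike 𝕜]

/-- Sequences in the closed unit ball of the scalar field. -/
def Gam (𝕜 : Type*) [RCLike 𝕜] : Type _ := {t : ℕ → 𝕜 // ∀ k, ‖t k‖ ≤ 1}

lemma summable_mul_of_le {z t : ℕ → 𝕜} (hz : Summable fun k => ‖z k‖) (ht : ∀ k, ‖t k‖ ≤ 1) :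
    Summable fun k => ‖z k * t k‖ :=
  Summable.of_nonneg_of_le (fun _ => norm_nonneg _)
    (fun k => by rw [norm_mul]; exact mul_le_of_le_one_right (norm_nonneg _) (ht k)) hz

lemma norm_tsum_mul_le {z t : ℕ → 𝕜} (hz : Summable fun k => ‖z k‖) (ht : ∀ k, ‖t k‖ ≤ 1) :
    ‖∑' k, z k * t k‖ ≤ ∑' k, ‖z k‖ :=
  tsum_of_norm_bounded hz.hasSum
    fun k => by rw [norm_mul]; exact mul_le_of_le_one_right (norm_nonneg _) (ht k)

lemma block_est {z t : ℕ → 𝕜} (hz : Summable fun k => ‖z k‖) (ht : ∀ k, ‖t k‖ ≤ 1)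
    {N c c' : ℕ} (h1 : N ≤ c) (h2 : c ≤ c') (h0 : ∀ k < N, t k = 0) {s η : ℝ}
    (hs : ∀ k ∈ Finset.Ico c c', z k * t k = ((s * ‖z k‖ : ℝ) : 𝕜))
    (hh : ∑ k ∈ Finset.Ico N c, ‖z k‖ ≤ η) (htl : ∑' k, ‖z (k + c')‖ ≤ η) :
    |RCLike.re (∑' k, z k * t k) - s * ∑ k ∈ Finset.Ico c c', ‖z k‖| ≤ 2 * η := by
  have hsum : Summable fun k => z k * t k := (summable_mul_of_le hz ht).of_norm
  have e1 := hsum.sum_add_tsum_nat_add c'
  have e2 : ∑ k ∈ Finset.range c', z k * t k = ∑ k ∈ Finset.Ico N c, z k * t k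
      + ((s * ∑ k ∈ Finset.Ico c c', ‖z k‖ : ℝ) : 𝕜) := by
    rw [Finset.range_eq_Ico, ← Finset.sum_Ico_consecutive _ (Nat.zero_le c) h2,
      ← Finset.sum_Ico_consecutive _ (Nat.zero_le N) h1, Finset.sum_congr rfl hs,
      Finset.sum_eq_zero fun k hk => by rw [h0 k (Finset.mem_Ico.mp hk).2, mul_zero]]
    rw [Finset.mul_sum]
    push_cast
    ring
  have e3 : ‖∑ k ∈ Finset.Ico N c, z k * t k‖ ≤ η :=
    (norm_sum_le _ _).trans ((Finset.sum_le_sum fun k _ => by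
      rw [norm_mul]; exact mul_le_of_le_one_right (norm_nonneg _) (ht k)).trans hh)
  have e4 : ‖∑' k, z (k + c') * t (k + c')‖ ≤ η :=
    (norm_tsum_mul_le (z := fun k => z (k + c')) (t := fun k => t (k + c'))
      ((summable_nat_add_iff (f := fun k => ‖z k‖) c').mpr hz) fun k => ht _).trans htl
  have e5 : RCLike.re (∑' k, z k * t k) - s * ∑ k ∈ Finset.Ico c c', ‖z k‖
      = RCLike.re (∑ k ∈ Finset.Ico N c, z k * t k + ∑' k, z (k + c') * t (k + c')) := by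
    rw [← e1, e2]
    simp only [map_add, RCLike.ofReal_re]
    ring
  rw [e5]
  refine (RCLike.abs_re_le_norm _).trans ((norm_add_le _ _).trans (by linarith))

variable {V : Type*} [NormedAddCommGroup V] [NormedSpace 𝕜 V] [NormedSpace ℝ V]
  [IsScalarTower ℝ 𝕜 V]

theorem schur (ev : Gam 𝕜 → StrongDual 𝕜 V) (hev : ∀ t f, ‖ev t f‖ ≤ ‖f‖) {K : Set V}
    (hK : WeaklyCompact 𝕜 K) {η : ℝ} (hη : 0 < η) :
    ∃ N : ℕ, ∀ x ∈ K, ∀ z : ℕ → 𝕜, (Summable fun k => ‖z k‖) → ∑' k, ‖z k‖ ≤ 2 →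
      (∀ t : Gam 𝕜, ‖ev t x - ∑' k, z k * t.1 k‖ ≤ η) → ∑' k, ‖z (k + N)‖ ≤ 5 * η := by
  classical
  by_contra hcon
  push Not at hcon
  choose x hxK z hzs hz2 hxz hzt using hcon
  set U : Ultrafilter ℕ := hyperfilter ℕ with hU
  have hUtop : (U : Filter ℕ) ≤ atTop := by
    rw [← Nat.cofinite_eq_atTop]; exact hyperfilter_le_cofinite
  have hhead : ∀ N m, ∑ k ∈ Finset.range m, ‖z N k‖ ≤ 2 := fun N m =>
    ((hzs N).sum_le_tsum _ fun _ _ => norm_nonneg _).trans (hz2 N)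
  have hlim : ∀ k, ∃ w : ℝ, 0 ≤ w ∧ Tendsto (fun N => ‖z N k‖) U (𝓝 w) := by
    intro k
    obtain ⟨w, hw1, hw2⟩ := (isCompact_Icc (a := (0 : ℝ)) (b := 2)).ultrafilter_le_nhds
      (U.map fun N => ‖z N k‖) (by
        rw [Ultrafilter.coe_map, le_principal_iff, mem_map]
        refine univ_mem' fun N => ⟨norm_nonneg _, ?_⟩
        exact ((hzs N).le_tsum k fun _ _ => norm_nonneg _).trans (hz2 N))
    exact ⟨w, hw1.1, hw2⟩
  choose w hw0 hw using hlim
  have hws : Summable w := by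
    refine summable_of_sum_range_le (c := 2) hw0 fun m => ?_
    exact le_of_tendsto' (tendsto_finsetSum _ fun k _ => hw k) fun N => hhead N m
  obtain ⟨N₀, hN₀⟩ : ∃ N₀, ∑' k, w (k + N₀) < η :=
    ((tendsto_sum_nat_add w).eventually (gt_mem_nhds hη)).exists
  have hstep : ∀ c, ∃ j c', c ≤ j ∧ j < c' ∧ ∑ k ∈ Finset.Ico N₀ c, ‖z j k‖ ≤ η ∧
      ∑' k, ‖z j (k + c')‖ ≤ η := by
    intro c
    have h1 : ∑ k ∈ Finset.Ico N₀ c, w k < η := by
      rw [Finset.sum_Ico_eq_sum_range]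
      refine lt_of_le_of_lt ?_ hN₀
      simp_rw [add_comm N₀]
      exact ((summable_nat_add_iff N₀).mpr hws).sum_le_tsum _ fun _ _ => hw0 _
    have h2 := (tendsto_finsetSum (Finset.Ico N₀ c) fun k _ => hw k).eventually (gt_mem_nhds h1)
    obtain ⟨j, hj1, hj2⟩ := (h2.and (hUtop (eventually_ge_atTop c))).exists
    obtain ⟨c', hc1, hc2⟩ := (((tendsto_sum_nat_add fun k => ‖z j k‖).eventually
      (gt_mem_nhds hη)).and (eventually_gt_atTop j)).exists
    exact ⟨j, c', hj2, hc2, hj1.le, hc1.le⟩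
  choose jf cf h1 h2 h3 h4 using hstep
  let c : ℕ → ℕ := fun i => cf^[i] N₀
  have hc : ∀ i, c (i + 1) = cf (c i) := fun i => Function.iterate_succ_apply' cf i N₀
  have hcmono : StrictMono c := strictMono_nat_of_lt_succ fun i => by
    rw [hc]; exact lt_of_le_of_lt (h1 _) (h2 _)
  have hc0 : ∀ i, N₀ ≤ c i := fun i => hcmono.monotone (Nat.zero_le i)
  let j : ℕ → ℕ := fun i => jf (c i)
  have hmass : ∀ i, 4 * η ≤ ∑ k ∈ Finset.Ico (c i) (c (i + 1)), ‖z (j i) k‖ := by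
    intro i
    have e1 := (hzs (j i)).sum_add_tsum_nat_add (j i)
    have e2 := (hzs (j i)).sum_add_tsum_nat_add (c (i + 1))
    have e3 := hzt (j i)
    have e4 := h4 (c i)
    rw [← hc] at e4
    have e5 : ∑ k ∈ Finset.range (c i), ‖z (j i) k‖ ≤ ∑ k ∈ Finset.range (j i), ‖z (j i) k‖ :=
      Finset.sum_le_sum_of_subset_of_nonneg (Finset.range_subset_range.mpr (h1 _))
        fun _ _ _ => norm_nonneg _
    rw [Finset.sum_Ico_eq_sub _ (hcmono.monotone (Nat.le_succ i))]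
    linarith
  have hu : ∀ k, ∃ a : 𝕜, ‖a‖ ≤ 1 ∧ ∀ i, k ∈ Finset.Ico (c i) (c (i + 1)) →
      a * z (j i) k = ‖z (j i) k‖ := by
    intro k
    by_cases hk : ∃ i, k ∈ Finset.Ico (c i) (c (i + 1))
    · obtain ⟨i, hi⟩ := hk
      obtain ⟨a, ha1, ha2⟩ := exists_unit (z (j i) k)
      refine ⟨a, ha1, fun i' hi' => ?_⟩
      have : i' = i := by
        rw [Finset.mem_Ico] at hi hi'
        have a1 : i' < i + 1 := hcmono.lt_iff_lt.mp (lt_of_le_of_lt hi'.1 hi.2)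
        have a2 : i < i' + 1 := hcmono.lt_iff_lt.mp (lt_of_le_of_lt hi.1 hi'.2)
        omega
      rw [this, ha2]
    · exact ⟨0, by simp, fun i hi => absurd ⟨i, hi⟩ hk⟩
  choose u hu1 hu2 using hu
  let t : ℕ → Gam 𝕜 := fun m =>
    ⟨fun k => if k < N₀ then 0 else if k < c m then u k else - u k, fun k => by
      dsimp only
      split_ifs <;> simp [hu1 k]⟩
  have hest : ∀ m i (s : ℝ), (∀ k ∈ Finset.Ico (c i) (c (i + 1)), (t m).1 k = s * u k) →
      |RCLike.re (ev (t m) (x (j i))) - s * ∑ k ∈ Finset.Ico (c i) (c (i + 1)), ‖z (j i) k‖|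
        ≤ 3 * η := by
    intro m i s hs
    have e1 := block_est (hzs (j i)) (t m).2 (hc0 i) (hcmono.monotone (Nat.le_succ i))
      (fun k hk => by simp [t, hk]) (s := s) (η := η)
      (fun k hk => by
        rw [hs k hk, RCLike.ofReal_mul, ← hu2 k i hk]; ring) (h3 _) (by rw [hc]; exact h4 _)
    have e2 := (RCLike.abs_re_le_norm _).trans (hxz (j i) (t m))
    rw [map_sub] at e2
    rw [abs_le] at e1 e2 ⊢
    constructor <;> linarith [e1.1, e1.2, e2.1, e2.2]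
  have hpos : ∀ m i, i < m → η ≤ RCLike.re (ev (t m) (x (j i))) := by
    intro m i him
    have e1 := hest m i 1 fun k hk => by
      rw [Finset.mem_Ico] at hk
      have a1 : ¬ k < N₀ := not_lt.mpr ((hc0 i).trans hk.1)
      have a2 : k < c m := lt_of_lt_of_le hk.2 (hcmono.monotone him)
      simp [t, a1, a2]
    linarith [(abs_le.mp e1).1, hmass i]
  have hneg : ∀ m i, m ≤ i → RCLike.re (ev (t m) (x (j i))) ≤ - η := by
    intro m i him
    have e1 := hest m i (-1) fun k hk => by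
      rw [Finset.mem_Ico] at hk
      have a1 : ¬ k < N₀ := not_lt.mpr ((hc0 i).trans hk.1)
      have a2 : ¬ k < c m := not_lt.mpr ((hcmono.monotone him).trans hk.1)
      simp [t, a1, a2]
    linarith [(abs_le.mp e1).2, hmass i]
  obtain ⟨_, ⟨x₀, -, rfl⟩, hx₀⟩ := IsCompact.ultrafilter_le_nhds hK
    (U.map fun i => toWeakSpace 𝕜 V (x (j i))) (by
      rw [Ultrafilter.coe_map, le_principal_iff, mem_map]
      exact univ_mem' fun i => ⟨_, hxK _, rfl⟩)
  have hx₀' : Tendsto (fun i => toWeakSpace 𝕜 V (x (j i))) U (𝓝 (toWeakSpace 𝕜 V x₀)) := hx₀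
  set D : Set V := {v | ∃ m, ∀ m', m ≤ m' → η ≤ RCLike.re (ev (t m') v)} with hD
  have hconv : Convex ℝ D := by
    rintro v ⟨m, hm⟩ v' ⟨m', hm'⟩ a b ha hb hab
    refine ⟨max m m', fun n hn => ?_⟩
    have e1 := hm n ((le_max_left _ _).trans hn)
    have e2 := hm' n ((le_max_right _ _).trans hn)
    rw [RCLike.real_smul_eq_coe_smul (K := 𝕜), RCLike.real_smul_eq_coe_smul (K := 𝕜)]
    simp only [map_add, map_smul, smul_eq_mul, RCLike.re_ofReal_mul]
    nlinarith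
  have hcl : x₀ ∈ closure D := by
    have e1 : toWeakSpace 𝕜 V x₀ ∈ closure (toWeakSpace 𝕜 V '' D) :=
      mem_closure_of_tendsto hx₀' (Eventually.of_forall fun i =>
        ⟨_, ⟨i + 1, fun m' hm' => hpos m' i hm'⟩, rfl⟩)
    rw [← hconv.toWeakSpace_closure 𝕜] at e1
    obtain ⟨v, hv, hv2⟩ := e1
    rwa [← (toWeakSpace 𝕜 V).injective hv2]
  obtain ⟨v, ⟨m, hm⟩, hv⟩ := Metric.mem_closure_iff.mp hcl η hη
  have e1 := hm m le_rfl
  have e2 := (RCLike.abs_re_le_norm _).trans (hev (t m) (x₀ - v))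
  rw [dist_eq_norm] at hv
  rw [map_sub, map_sub] at e2
  have e3 : Tendsto (fun i => ev (t m) (x (j i))) U (𝓝 (ev (t m) x₀)) := by
    rw [(NormedSpace.isEmbedding_inclusionInDoubleDualWeak 𝕜 V).tendsto_nhds_iff,
      tendsto_iff_forall_eval_tendsto_topDualPairing] at hx₀'
    exact hx₀' (ev (t m))
  have e4 : RCLike.re (ev (t m) x₀) ≤ - η :=
    le_of_tendsto ((RCLike.continuous_re.tendsto _).comp e3)
      (((eventually_ge_atTop m).filter_mono hUtop).mono fun i hi => hneg m i hi)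
  linarith [(abs_le.mp e2).1]

end Pool.Agent.P.MP_997199_an
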