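import Mathlib
import Pool.Agent.P.MP_997199_an.Quad
import Pool.Agent.P.MP_997199_an.Core
import Pool.Agent.P.MP_997199_an.Schur

/-!
The counterexample, for abstract spaces with the listed properties.
-/

namespace Pool.Agent.P.MP_997199_an

open Filter Topology
open scoped ENNReal

universe u

variable {𝕜 : Type*} [RCLike 𝕜]
variable {V : Type*} [NormedAddCommGroup V] [NormedSpace 𝕜 V]
variable {Z : Type*} [NormedAddCommGroup Z] [NormedSpace 𝕜 Z]
variable {W : Type*} [NormedAddCommGroup W] [NormedSpace 𝕜 W]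
variable {X : Type*} [NormedAddCommGroup X] [NormedSpace 𝕜 X]

/-- `W` is the space of null sequences in `F`. -/
structure IsC0 {F : Type*} [NormedAddCommGroup F] [NormedSpace 𝕜 F]
    (co : ℕ → W →L[𝕜] F) (sing : ℕ → F →L[𝕜] W) : Prop where
  le_norm : ∀ n p, ‖co n p‖ ≤ ‖p‖
  norm_le : ∀ p C, 0 ≤ C → (∀ n, ‖co n p‖ ≤ C) → ‖p‖ ≤ C
  null : ∀ p, Tendsto (fun n => ‖co n p‖) atTop (𝓝 0)
  co_sing : ∀ m n v, co m (sing n v) = if m = n then v else 0

section C0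

variable {F : Type*} [NormedAddCommGroup F] [NormedSpace 𝕜 F]
  {co : ℕ → W →L[𝕜] F} {sing : ℕ → F →L[𝕜] W}

lemma IsC0.co_trunc (hW : IsC0 co sing) (p : W) (M n : ℕ) :
    co n (∑ k ∈ Finset.range M, sing k (co k p)) = if n < M then co n p else 0 := by
  simp only [map_sum, hW.co_sing]
  rw [Finset.sum_ite_eq]
  simp

lemma IsC0.tendsto_trunc (hW : IsC0 co sing) (p : W) :
    Tendsto (fun M => ∑ k ∈ Finset.range M, sing k (co k p)) atTop (𝓝 p) := by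
  rw [Metric.tendsto_atTop]
  intro ε hε
  obtain ⟨N, hN⟩ := eventually_atTop.mp ((hW.null p).eventually (ge_mem_nhds (half_pos hε)))
  refine ⟨N, fun M hM => ?_⟩
  rw [dist_eq_norm]
  refine lt_of_le_of_lt (hW.norm_le _ (ε / 2) (half_pos hε).le fun n => ?_) (half_lt_self hε)
  rw [map_sub, hW.co_trunc]
  split_ifs with h
  · simpa using (half_pos hε).le
  · simpa using hN n (by omega)

lemma sum_block_le_one {M : ℕ → ℕ} (hM : Monotone M) (n m : ℕ) :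
    ∑ k ∈ Finset.range m, (if M k ≤ n ∧ n < M (k + 1) then (1 : ℝ) else 0) ≤ 1 := by
  have h : ∑ k ∈ Finset.range m, (if M k ≤ n ∧ n < M (k + 1) then (1 : ℝ) else 0)
      ≤ if n < M m then 1 else 0 := by
    induction m with
    | zero => simp only [Finset.range_zero, Finset.sum_empty]; split_ifs <;> norm_num
    | succ m ih =>
      rw [Finset.sum_range_succ]
      have h1 := hM (Nat.le_succ m)
      by_cases h2 : n < M m
      · have h3 : n < M (m + 1) := lt_of_lt_of_le h2 h1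
        have h4 : ¬ M m ≤ n := not_le.mpr h2
        simp only [h2, h3, h4, if_true, false_and, if_false] at ih ⊢
        linarith
      · have h4 : M m ≤ n := not_lt.mp h2
        simp only [h2, h4, if_false, true_and] at ih ⊢
        linarith
  refine h.trans ?_
  split_ifs <;> norm_num

lemma IsC0.tail (hW : IsC0 co sing) {H : Set (StrongDual 𝕜 W)} (hH : UC H) {ε : ℝ} (hε : 0 < ε) :
    ∃ N, ∀ p, ‖p‖ ≤ 1 → (∀ n < N, co n p = 0) → ∀ h ∈ H, ‖h p‖ ≤ ε := by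
  by_contra hcon
  push Not at hcon
  have h1 : ∀ N, ∃ M, N ≤ M ∧ ∃ h ∈ H, ∃ y : W,
      (∀ n, ‖co n y‖ ≤ if N ≤ n ∧ n < M then 1 else 0) ∧ ε < ‖h y‖ := by
    intro N
    obtain ⟨p, hp1, hp2, h, hh, hlt⟩ := hcon N
    have h2 := ((h.continuous.tendsto p).comp (hW.tendsto_trunc p)).norm
    obtain ⟨M, hM1, hM2⟩ := ((h2.eventually (lt_mem_nhds hlt)).and (eventually_ge_atTop N)).exists
    refine ⟨M, hM2, h, hh, _, fun n => ?_, hM1⟩
    rw [hW.co_trunc]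
    by_cases h3 : n < M
    · by_cases h4 : N ≤ n
      · simpa [h3, h4] using (hW.le_norm n p).trans hp1
      · simp [h3, h4, hp2 n (not_le.mp h4)]
    · simp [h3]
  choose nx hnx hf hfH y hy hyε using h1
  let M : ℕ → ℕ := fun k => nx^[k] 0
  have hM : ∀ k, M (k + 1) = nx (M k) := fun k => Function.iterate_succ_apply' nx k 0
  have hMmono : Monotone M := monotone_nat_of_le_succ fun k => by rw [hM]; exact hnx _
  have hw : WUC 𝕜 (fun k => y (M k)) := by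
    refine ⟨1, fun c m hc => hW.norm_le _ _ zero_le_one fun n => ?_⟩
    rw [map_sum]
    refine (norm_sum_le _ _).trans
      (le_trans (Finset.sum_le_sum fun k _ => ?_) (sum_block_le_one hMmono n m))
    rw [map_smul, norm_smul, hM]
    nlinarith [hy (M k) n, hc k, norm_nonneg (co n (y (M k))), norm_nonneg (c k)]
  obtain ⟨k, hk⟩ := (hH _ hw ε hε).exists
  exact absurd (hk _ (hfH (M k))) (not_le.mpr (hyε (M k)))

end C0

/-- The map `(u, z) ↦ u / (n + 1) + J z`. -/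
noncomputable def phi (J : Z →L[𝕜] V) (n : ℕ) : V × Z →L[𝕜] V :=
  ((n + 1 : 𝕜)⁻¹ • ContinuousLinearMap.id 𝕜 V).coprod J

lemma phi_apply (J : Z →L[𝕜] V) (n : ℕ) (v : V × Z) :
    phi J n v = (n + 1 : 𝕜)⁻¹ • v.1 + J v.2 := by
  simp [phi]

lemma norm_succ_inv (n : ℕ) : ‖(n + 1 : 𝕜)⁻¹‖ = (n + 1 : ℝ)⁻¹ := by
  have : (n + 1 : 𝕜) = ((n + 1 : ℝ) : 𝕜) := by push_cast; rfl
  rw [norm_inv, this, RCLike.norm_ofReal, abs_of_pos (by positivity)]

/-- All the data of the construction. -/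
structure Setup (ev : Gam 𝕜 → StrongDual 𝕜 V) (cz : Z → ℕ → 𝕜) (e : ℕ → Z) (J : Z →L[𝕜] V)
    (co : ℕ → W →L[𝕜] V × Z) (sing : ℕ → V × Z →L[𝕜] W) (q : W →L[𝕜] X)
    (P : ℕ → X →L[𝕜] V) : Prop where
  linf : IsLinf ev
  hasSum : ∀ z, HasSum (fun k => ‖cz z k‖) ‖z‖
  ev_J : ∀ t z, ev t (J z) = ∑' k, cz z k * t.1 k
  norm_e : ∀ k, ‖e k‖ ≤ 1
  ev_e : ∀ t k, ev t (J (e k)) = t.1 k
  c0 : IsC0 co sing
  q_le : ∀ p, ‖q p‖ ≤ ‖p‖
  q_surj : ∀ x, ‖x‖ ≤ 1 → ∃ p, q p = x ∧ ‖p‖ ≤ 2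
  P_q : ∀ n p, P n (q p) = phi J n (co n p)
  q_ker : ∀ p, (∀ n, phi J n (co n p) = 0) → q p = 0

variable {ev : Gam 𝕜 → StrongDual 𝕜 V} {cz : Z → ℕ → 𝕜} {e : ℕ → Z} {J : Z →L[𝕜] V}
  {co : ℕ → W →L[𝕜] V × Z} {sing : ℕ → V × Z →L[𝕜] W} {q : W →L[𝕜] X} {P : ℕ → X →L[𝕜] V}

lemma Setup.norm_J (S : Setup ev cz e J co sing q P) (z : Z) : ‖J z‖ ≤ ‖z‖ := by
  refine S.linf.norm_le _ _ (norm_nonneg _) fun t => ?_
  rw [S.ev_J, ← (S.hasSum z).tsum_eq]
  exact norm_tsum_mul_le (S.hasSum z).summable t.2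

lemma Setup.norm_phi (S : Setup ev cz e J co sing q P) (n : ℕ) (v : V × Z) :
    ‖phi J n v‖ ≤ 2 * ‖v‖ := by
  rw [phi_apply]
  refine (norm_add_le _ _).trans ?_
  rw [norm_smul, norm_succ_inv]
  have h1 : (n + 1 : ℝ)⁻¹ ≤ 1 := inv_le_one_of_one_le₀ (by linarith [Nat.cast_nonneg (α := ℝ) n])
  nlinarith [norm_fst_le v, norm_snd_le v, S.norm_J v.2, norm_nonneg v.1]

theorem Setup.ctrl (S : Setup ev cz e J co sing q P) {H : Set (StrongDual 𝕜 X)} (hH : UC H)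
    {M : ℝ} (hM : ∀ h ∈ H, ‖h‖ ≤ M) :
    Ctrl ((fun h : StrongDual 𝕜 X => (h.comp q : StrongDual 𝕜 W)) '' H) := by
  intro ε hε
  obtain ⟨N, hN⟩ := S.c0.tail (hH.comp q) (half_pos hε)
  let R : ℕ → V →L[𝕜] X := fun n =>
    q.comp ((sing n).comp ((n + 1 : 𝕜) • ContinuousLinearMap.inl 𝕜 V Z))
  have hR : ∀ n v, q (sing n v) = R n (phi J n v) := by
    intro n v
    have h1 : q (sing n (v - ((n + 1 : 𝕜) • phi J n v, 0))) = 0 := by
      refine S.q_ker _ fun m => ?_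
      rw [S.c0.co_sing]
      split_ifs with h
      · subst h
        have h2 : (m + 1 : 𝕜) ≠ 0 := by exact_mod_cast Nat.succ_ne_zero m
        have h3 : phi J m ((m + 1 : 𝕜) • phi J m v, 0) = phi J m v := by
          generalize phi J m v = w
          rw [phi_apply]
          simp [smul_smul, inv_mul_cancel₀ h2]
        rw [map_sub, h3, sub_self]
      · simp
    rw [map_sub, map_sub, sub_eq_zero] at h1
    rw [h1]
    have h4 : ((n + 1 : 𝕜) • phi J n v, (0 : Z))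
        = ((n + 1 : 𝕜) • ContinuousLinearMap.inl 𝕜 V Z) (phi J n v) := by simp
    rw [h4]
    rfl
  have hctrl : ∀ n, Ctrl ((fun h : StrongDual 𝕜 X => (h.comp (R n) : StrongDual 𝕜 V)) '' H) := by
    intro n
    refine S.linf.ctrl (hH.comp (R n)) (M := |M| * ‖R n‖) ?_
    rintro _ ⟨h, hh, rfl⟩
    refine (ContinuousLinearMap.opNorm_comp_le _ _).trans ?_
    gcongr
    exact (hM h hh).trans (le_abs_self M)
  choose Q hQ hQε using fun n => hctrl n (ε / (4 * (N + 1))) (by positivity)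
  refine ⟨fun p => ∑ n ∈ Finset.range N, Q n (((2⁻¹ : 𝕜) • (phi J n).comp (co n)) p),
    IsQ.sum _ fun n _ => (hQ n).comp _, fun p hp hQp => ?_⟩
  rintro _ ⟨h, hh, rfl⟩
  have h2 : ‖(2⁻¹ : 𝕜)‖ = 2⁻¹ := by simp
  have h3 : ∀ n ∈ Finset.range N, ‖h (q (sing n (co n p)))‖ ≤ ε / (2 * (N + 1)) := by
    intro n hn
    have h4 : Q n (((2⁻¹ : 𝕜) • (phi J n).comp (co n)) p) < 1 :=
      lt_of_le_of_lt (Finset.single_le_sum
        (f := fun n => Q n (((2⁻¹ : 𝕜) • (phi J n).comp (co n)) p))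
        (fun m _ => (hQ m).nonneg _) hn) hQp
    have h5 : ((2⁻¹ : 𝕜) • (phi J n).comp (co n)) p = (2⁻¹ : 𝕜) • phi J n (co n p) := rfl
    rw [h5] at h4
    have h6 := hQε n _ (by
      rw [norm_smul, h2]
      linarith [S.norm_phi n (co n p), S.c0.le_norm n p]) h4 _ ⟨h, hh, rfl⟩
    rw [map_smul, norm_smul, h2] at h6
    have h7 : ε / (2 * (N + 1)) = 2 * (ε / (4 * (N + 1))) := by field_simp; ring
    rw [hR, h7]
    have h8 : (h.comp (R n)) (phi J n (co n p)) = h (R n (phi J n (co n p))) := rfl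
    rw [h8] at h6
    linarith
  have h4 : ‖h (q (∑ n ∈ Finset.range N, sing n (co n p)))‖ ≤ ε / 2 := by
    rw [map_sum, map_sum]
    refine (norm_sum_le _ _).trans ((Finset.sum_le_sum h3).trans ?_)
    rw [Finset.sum_const, Finset.card_range, nsmul_eq_mul, ← mul_div_assoc,
      div_le_div_iff₀ (by positivity) (by positivity)]
    nlinarith
  have h5 := hN (p - ∑ n ∈ Finset.range N, sing n (co n p))
    (S.c0.norm_le _ _ zero_le_one fun n => by
      rw [map_sub, S.c0.co_trunc]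
      split_ifs
      · simp
      · simpa using (S.c0.le_norm n p).trans hp)
    (fun n hn => by rw [map_sub, S.c0.co_trunc, if_pos hn, sub_self]) _ ⟨h, hh, rfl⟩
  have h6 : (h.comp q) p = h (q (∑ n ∈ Finset.range N, sing n (co n p)))
      + (h.comp q) (p - ∑ n ∈ Finset.range N, sing n (co n p)) := by
    simp
  change ‖(h.comp q) p‖ ≤ ε
  rw [h6]
  refine (norm_add_le _ _).trans ?_
  linarith

theorem Setup.rdpp (S : Setup ev cz e J co sing q P) : RDPP.{u} 𝕜 X := by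
  intro Y _ _ _ T hT
  have h1 := S.ctrl (uc_of_cc T hT) (M := ‖T‖) (by
    rintro _ ⟨φ, hφ, rfl⟩
    have h1 : ‖φ‖ ≤ 1 := by simpa using hφ
    refine (ContinuousLinearMap.opNorm_comp_le _ _).trans ?_
    nlinarith [norm_nonneg T, norm_nonneg φ])
  have h2 : ‖(2 : 𝕜)‖ = 2 := by simp
  have h3 := weaklyCompact_of_ctrl (T.comp ((2 : 𝕜) • q)) (by
    intro ε hε
    obtain ⟨Q, hQ, hQε⟩ := h1 (ε / 2) (half_pos hε)
    refine ⟨Q, hQ, fun p hp hQp => ?_⟩
    have h4 : ‖T (q p)‖ ≤ ε / 2 := by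
      refine NormedSpace.norm_le_dual_bound 𝕜 _ (half_pos hε).le fun φ => ?_
      by_cases hφ : φ = 0
      · simp [hφ]
      have h5 : 0 < ‖φ‖ := norm_pos_iff.mpr hφ
      have h6 := hQε p hp hQp _ ⟨_, ⟨((‖φ‖⁻¹ : ℝ) : 𝕜) • φ, by
        simp [norm_smul, inv_mul_cancel₀ h5.ne'], rfl⟩, rfl⟩
      have h7 : (((((‖φ‖⁻¹ : ℝ) : 𝕜) • φ).comp T).comp q) p = ((‖φ‖⁻¹ : ℝ) : 𝕜) * φ (T (q p)) :=
        rfl
      simp only at h6
      rw [h7, norm_mul, RCLike.norm_ofReal, abs_of_pos (inv_pos.mpr h5), inv_mul_le_iff₀ h5] at h6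
      linarith
    have h5 : (T.comp ((2 : 𝕜) • q)) p = (2 : 𝕜) • T (q p) := by simp
    rw [h5, norm_smul, h2]
    linarith)
  unfold WeaklyCompactOp at h3 ⊢
  refine h3.of_isClosed_subset isClosed_closure (closure_mono (Set.image_mono ?_))
  rintro _ ⟨x, hx, rfl⟩
  obtain ⟨p, hp1, hp2⟩ := S.q_surj x (by simpa using hx)
  refine ⟨(2⁻¹ : 𝕜) • p, ?_, ?_⟩
  · have : ‖(2⁻¹ : 𝕜)‖ = 2⁻¹ := by simp
    rw [mem_closedBall_zero_iff, norm_smul, this]
    linarith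
  · simp [smul_smul, hp1]

/-- The sign sequence attached to a Boolean sequence. -/
def tau (𝕜 : Type*) [RCLike 𝕜] (b : ℕ → Bool) : Gam 𝕜 :=
  ⟨fun k => if b k then 1 else -1, fun k => by
    dsimp only
    split_ifs <;> simp⟩

/-- The sets of functionals. -/
def setA (ev : Gam 𝕜 → StrongDual 𝕜 V) (P : ℕ → X →L[𝕜] V) (n : ℕ) : Set (StrongDual 𝕜 X) :=
  Set.range fun b : ℕ → Bool => ((ev (tau 𝕜 b)).comp (P n) : StrongDual 𝕜 X)

lemma Setup.bounded (S : Setup ev cz e J co sing q P) (n : ℕ) :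
    Bornology.IsBounded (setA ev P n) := by
  refine isBounded_iff_forall_norm_le.mpr ⟨‖P n‖, ?_⟩
  rintro _ ⟨b, rfl⟩
  refine ContinuousLinearMap.opNorm_le_bound _ (norm_nonneg _) fun x => ?_
  exact (S.linf.le_norm _ _).trans ((P n).le_opNorm x)

lemma ofReal_le_edist {a h : StrongDual 𝕜 X} {x : X} (hx : ‖x‖ ≤ 1) {c : ℝ}
    (hc : c ≤ ‖a x - h x‖) : ENNReal.ofReal c ≤ edist a h := by
  rw [edist_dist, dist_eq_norm]
  refine ENNReal.ofReal_le_ofReal (hc.trans ?_)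
  exact (a - h).unit_le_opNorm x hx

theorem Setup.lower [CompleteSpace X] (S : Setup ev cz e J co sing q P) (n : ℕ) :
    ENNReal.ofReal (1 / 2) ≤ omegaM 𝕜 (setA ev P n) := by
  refine le_iInf₂ fun H hH => ?_
  obtain ⟨M, hM⟩ := bdd_of_mackey hH
  obtain ⟨Q, hQ, hQε⟩ := S.ctrl (uc_of_mackey hH) hM (1 / 2) (by norm_num)
  obtain ⟨C, hC⟩ := hQ.bdd
  have hsing : ∀ v : V × Z, ‖sing n v‖ ≤ ‖v‖ := fun v =>
    S.c0.norm_le _ _ (norm_nonneg _) fun m => by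
      rw [S.c0.co_sing]; split_ifs <;> simp
  have hx : ∀ k, ‖sing n (0, e k)‖ ≤ 1 := fun k =>
    (hsing _).trans (by simpa [Prod.norm_def] using S.norm_e k)
  have hQx : ∀ k, Q (sing n (0, e k)) ≤ |C| := fun k => by
    have h1 : ‖sing n (0, e k)‖ ^ 2 ≤ 1 := pow_le_one₀ (norm_nonneg _) (hx k)
    calc Q (sing n (0, e k)) ≤ C * ‖sing n (0, e k)‖ ^ 2 := hC _
      _ ≤ |C| * ‖sing n (0, e k)‖ ^ 2 := by gcongr; exact le_abs_self C
      _ ≤ |C| * 1 := by gcongr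
      _ = |C| := mul_one _
  obtain ⟨m, hm⟩ := exists_nat_gt |C|
  have hm0 : (0 : ℝ) < m := lt_of_le_of_lt (abs_nonneg C) hm
  obtain ⟨b, hb⟩ := hQ.exists_signs (fun k => sing n (0, e k)) hQx m
  set s := ∑ k ∈ Finset.range m, (if b k then (1 : 𝕜) else -1) • sing n (0, e k) with hs
  have hnm : ‖((m : 𝕜))⁻¹‖ = (m : ℝ)⁻¹ := by simp
  have hs1 : ‖s‖ ≤ m := by
    refine (norm_sum_le _ _).trans ((Finset.sum_le_sum (g := fun _ => (1 : ℝ)) fun k _ => ?_).trans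
      (by simp))
    rw [norm_smul]
    have : ‖if b k then (1 : 𝕜) else -1‖ = 1 := by split_ifs <;> simp
    rw [this, one_mul]
    exact hx k
  have hp : ‖(m : 𝕜)⁻¹ • s‖ ≤ 1 := by
    rw [norm_smul, hnm, inv_mul_le_iff₀ hm0, mul_one]; exact hs1
  have hQp : Q ((m : 𝕜)⁻¹ • s) < 1 := by
    rw [hQ.smul, hnm, inv_pow, inv_mul_lt_iff₀ (by positivity)]
    nlinarith
  have hval : ev (tau 𝕜 b) (P n (q ((m : 𝕜)⁻¹ • s))) = 1 := by
    have h1 : ∀ k, ev (tau 𝕜 b) (P n (q ((if b k then (1 : 𝕜) else -1) • sing n (0, e k)))) = 1 := by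
      intro k
      rw [map_smul, map_smul, map_smul, S.P_q, S.c0.co_sing, if_pos rfl, phi_apply]
      simp only [smul_zero, zero_add, S.ev_e, tau, smul_eq_mul]
      split_ifs <;> simp
    have hm1 : (m : 𝕜) ≠ 0 := by exact_mod_cast hm0.ne'
    rw [map_smul, map_smul, map_smul, hs, map_sum, map_sum, map_sum]
    simp only [h1]
    simp [inv_mul_cancel₀ hm1]
  refine le_trans ?_ (le_iSup₂_of_le ((ev (tau 𝕜 b)).comp (P n) : StrongDual 𝕜 X) ⟨b, rfl⟩ le_rfl)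
  refine Metric.le_infEDist.mpr fun h hh => ?_
  refine ofReal_le_edist (x := q ((m : 𝕜)⁻¹ • s)) ((S.q_le _).trans hp) ?_
  have h1 := hQε _ hp hQp _ ⟨h, hh, rfl⟩
  have h2 : ((ev (tau 𝕜 b)).comp (P n)) (q ((m : 𝕜)⁻¹ • s)) = 1 := hval
  have h3 : ‖h (q ((m : 𝕜)⁻¹ • s))‖ ≤ 1 / 2 := h1
  rw [h2]
  have h4 := norm_sub_norm_le (1 : 𝕜) (h (q ((m : 𝕜)⁻¹ • s)))
  rw [norm_one] at h4
  linarith

theorem Setup.upper [NormedSpace ℝ V] [IsScalarTower ℝ 𝕜 V] (S : Setup ev cz e J co sing q P)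
    (n : ℕ) : chiM 𝕜 (setA ev P n) ≤ ENNReal.ofReal (24 * (n + 1 : ℝ)⁻¹) := by
  classical
  refine iSup₂_le fun L hL => ?_
  have hK : WeaklyCompact 𝕜 (P n '' L) := by
    have h1 := IsCompact.image hL.2 (WeakSpace.map (P n)).continuous
    unfold WeaklyCompact
    rw [Set.image_image] at h1 ⊢
    exact h1
  set ε : ℝ := (n + 1 : ℝ)⁻¹ with hε
  have hε0 : 0 < ε := by positivity
  obtain ⟨N, hN⟩ := schur ev S.linf.le_norm hK (η := 2 * ε) (by positivity)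
  let cut : (Fin N → Bool) → ℕ → Bool := fun a k => if h : k < N then a ⟨k, h⟩ else true
  let res : StrongDual 𝕜 X → UniformFun L 𝕜 := fun f => UniformFun.ofFun (fun x : L => f x)
  let fn : (ℕ → Bool) → StrongDual 𝕜 X := fun b => (ev (tau 𝕜 b)).comp (P n)
  refine iInf₂_le_of_le (Set.range fun a : Fin N → Bool => res (fn (cut a)))
    ⟨Set.finite_range _, by rintro _ ⟨a, rfl⟩; exact ⟨_, ⟨cut a, rfl⟩, rfl⟩⟩ ?_
  refine iSup₂_le ?_
  rintro _ ⟨_, ⟨b, rfl⟩, rfl⟩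
  refine (Metric.infEDist_le_edist_of_mem
    (Set.mem_range_self (f := fun a : Fin N → Bool => res (fn (cut a))) fun i => b i)).trans ?_
  refine UniformFun.edist_le.mpr fun x => ?_
  rw [edist_dist, dist_eq_norm]
  refine ENNReal.ofReal_le_ofReal ?_
  change ‖ev (tau 𝕜 b) (P n x) - ev (tau 𝕜 (cut fun i => b i)) (P n x)‖ ≤ 24 * ε
  obtain ⟨p, hp1, hp2⟩ := S.q_surj x (by simpa using hL.1 x.2)
  set z := cz (co n p).2 with hz
  have hzs : Summable fun k => ‖z k‖ := (S.hasSum _).summable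
  have hrep : ∀ t : Gam 𝕜, ‖ev t (P n x) - ∑' k, z k * t.1 k‖ ≤ 2 * ε := by
    intro t
    rw [← hp1, S.P_q, phi_apply, map_add, S.ev_J, add_sub_cancel_right]
    refine (S.linf.le_norm _ _).trans ?_
    rw [norm_smul, norm_succ_inv]
    nlinarith [norm_fst_le (co n p), S.c0.le_norm n p]
  have htail := hN _ ⟨x, x.2, rfl⟩ z hzs (by
    rw [(S.hasSum _).tsum_eq]
    linarith [norm_snd_le (co n p), S.c0.le_norm n p]) hrep
  set t := tau 𝕜 b with ht
  set s := tau 𝕜 (cut fun i => b i) with hs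
  have hts : ∀ k ∈ Finset.range N, z k * t.1 k = z k * s.1 k := by
    intro k hk
    have h1 : cut (fun i => b i) k = b k := by simp [cut, Finset.mem_range.mp hk]
    simp only [ht, hs, tau, h1]
  have e1 := ((summable_mul_of_le hzs t.2).of_norm).sum_add_tsum_nat_add N
  have e2 := ((summable_mul_of_le hzs s.2).of_norm).sum_add_tsum_nat_add N
  have hzs' := (summable_nat_add_iff (f := fun k => ‖z k‖) N).mpr hzs
  have e3 := norm_tsum_mul_le (z := fun k => z (k + N)) (t := fun k => t.1 (k + N)) hzs'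
    fun k => t.2 _
  have e4 := norm_tsum_mul_le (z := fun k => z (k + N)) (t := fun k => s.1 (k + N)) hzs'
    fun k => s.2 _
  rw [Finset.sum_congr rfl hts] at e1
  have e5 : ev t (P n x) - ev s (P n x) = (ev t (P n x) - ∑' k, z k * t.1 k)
      - (ev s (P n x) - ∑' k, z k * s.1 k)
      + (∑' k, z (k + N) * t.1 (k + N) - ∑' k, z (k + N) * s.1 (k + N)) := by
    rw [← e1, ← e2]; ring
  rw [e5]
  refine (norm_add_le _ _).trans ?_
  linarith [norm_sub_le (ev t (P n x) - ∑' k, z k * t.1 k) (ev s (P n x) - ∑' k, z k * s.1 k),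
    norm_sub_le (∑' k, z (k + N) * t.1 (k + N)) (∑' k, z (k + N) * s.1 (k + N)), hrep t, hrep s]

theorem Setup.main [CompleteSpace X] [NormedSpace ℝ V] [IsScalarTower ℝ 𝕜 V]
    (S : Setup ev cz e J co sing q P) (n : ℕ) :
    ∃ A : Set (StrongDual 𝕜 X), A.Nonempty ∧ Bornology.IsBounded A ∧
      (n : ℝ≥0∞) * chiM 𝕜 A < omegaM 𝕜 A := by
  refine ⟨setA ev P (48 * n), Set.range_nonempty _, S.bounded _, ?_⟩
  refine lt_of_lt_of_le (lt_of_le_of_lt (mul_le_mul_right (S.upper _) _) ?_) (S.lower _)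
  rw [← ENNReal.ofReal_natCast, ← ENNReal.ofReal_mul (Nat.cast_nonneg n),
    ENNReal.ofReal_lt_ofReal_iff (by norm_num), ← mul_assoc, mul_inv_lt_iff₀ (by positivity)]
  push_cast
  linarith

end Pool.Agent.P.MP_997199_an
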