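import Mathlib
import Pool.Agent.P.MP_997199_an.Abstract

/-!
Concrete spaces for the counterexample.
-/

namespace Pool.Agent.P.MP_997199_an

open Filter Topology
open scoped ENNReal ZeroAtInfty

universe u v

theorem exists_linf (𝕜 : Type v) [RCLike 𝕜] :
    ∃ (V : Type v) (_ : NormedAddCommGroup V) (_ : NormedSpace 𝕜 V) (_ : NormedSpace ℝ V)
      (_ : IsScalarTower ℝ 𝕜 V) (_ : CompleteSpace V) (ev : Gam 𝕜 → StrongDual 𝕜 V),
      IsLinf ev := by
  refine ⟨lp (fun _ : Gam 𝕜 => 𝕜) ∞, lp.normedAddCommGroup, lp.instNormedSpace,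
    lp.instNormedSpace, inferInstance, lp.completeSpace,
    fun t => lp.evalCLM 𝕜 (fun _ : Gam 𝕜 => 𝕜) ∞ t, ?_, ?_, ?_⟩
  · intro t f
    exact lp.norm_apply_le_norm ENNReal.top_ne_zero f t
  · intro f C hC h
    exact lp.norm_le_of_forall_le hC h
  · intro g C h
    exact ⟨⟨g, memℓp_infty ⟨C, by rintro _ ⟨t, rfl⟩; exact h t⟩⟩, fun t => rfl⟩

theorem exists_lone (𝕜 : Type v) [RCLike 𝕜] :
    ∃ (Z : Type v) (_ : NormedAddCommGroup Z) (_ : NormedSpace 𝕜 Z) (_ : CompleteSpace Z)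
      (cz : ℕ → StrongDual 𝕜 Z) (e : ℕ → Z),
      (∀ z, HasSum (fun k => ‖cz k z‖) ‖z‖) ∧ (∀ k, ‖e k‖ ≤ 1) ∧
        ∀ k l, cz k (e l) = if k = l then 1 else 0 := by
  refine ⟨lp (fun _ : ℕ => 𝕜) 1, lp.normedAddCommGroup, lp.instNormedSpace, lp.completeSpace,
    fun k => lp.evalCLM 𝕜 (fun _ : ℕ => 𝕜) 1 k, fun l => lp.single 1 l 1, ?_, ?_, ?_⟩
  · intro z
    have := lp.hasSum_norm (p := 1) (by simp) z
    change HasSum (fun k => ‖z k‖) ‖z‖
    simpa using this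
  · intro k
    rw [lp.norm_single one_pos]
    simp
  · intro k l
    change (lp.single 1 l (1 : 𝕜) : lp (fun _ : ℕ => 𝕜) 1) k = _
    rw [lp.single_apply, Pi.single_apply]

theorem exists_J {𝕜 : Type*} [RCLike 𝕜] {V : Type*} [NormedAddCommGroup V] [NormedSpace 𝕜 V]
    {Z : Type*} [NormedAddCommGroup Z] [NormedSpace 𝕜 Z] {ev : Gam 𝕜 → StrongDual 𝕜 V}
    (hev : IsLinf ev) {cz : ℕ → StrongDual 𝕜 Z} (hz : ∀ z, HasSum (fun k => ‖cz k z‖) ‖z‖) :
    ∃ J : Z →L[𝕜] V, ∀ t z, ev t (J z) = ∑' k, cz k z * t.1 k := by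
  have h1 : ∀ (z : Z) (t : Gam 𝕜), ‖∑' k, cz k z * t.1 k‖ ≤ ‖z‖ := fun z t => by
    rw [← (hz z).tsum_eq]
    exact norm_tsum_mul_le (hz z).summable t.2
  choose j hj using fun z : Z => hev.surj (fun t => ∑' k, cz k z * t.1 k) ‖z‖ (h1 z)
  have hs : ∀ (z : Z) (t : Gam 𝕜), Summable fun k => cz k z * t.1 k := fun z t =>
    (summable_mul_of_le (hz z).summable t.2).of_norm
  let J₀ : Z →ₗ[𝕜] V :=
    { toFun := j
      map_add' := fun z z' => hev.ext fun t => by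
        rw [map_add, hj, hj, hj, ← (hs z t).tsum_add (hs z' t)]
        simp [add_mul]
      map_smul' := fun c z => hev.ext fun t => by
        rw [map_smul, hj, hj, smul_eq_mul, ← tsum_mul_left]
        simp [mul_assoc] }
  refine ⟨J₀.mkContinuous 1 fun z => ?_, fun t z => hj z t⟩
  rw [one_mul]
  exact hev.norm_le _ _ (norm_nonneg _) fun t => by
    change ‖ev t (j z)‖ ≤ _
    rw [hj]; exact h1 z t

theorem exists_c0 (𝕜 : Type*) [RCLike 𝕜] (F : Type v) [NormedAddCommGroup F] [NormedSpace 𝕜 F]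
    [CompleteSpace F] :
    ∃ (W : Type v) (_ : NormedAddCommGroup W) (_ : NormedSpace 𝕜 W) (_ : CompleteSpace W)
      (co : ℕ → W →L[𝕜] F) (sing : ℕ → F →L[𝕜] W), IsC0 co sing := by
  have hle : ∀ (n : ℕ) (p : C₀(ℕ, F)), ‖p n‖ ≤ ‖p‖ := fun n p =>
    p.toBCF.norm_coe_le_norm n
  have hnl : ∀ (p : C₀(ℕ, F)) (C : ℝ), 0 ≤ C → (∀ n, ‖p n‖ ≤ C) → ‖p‖ ≤ C := fun p C hC h =>
    (BoundedContinuousFunction.norm_le (f := p.toBCF) hC).mpr h
  let co₀ : ℕ → C₀(ℕ, F) →ₗ[𝕜] F := fun n =>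
    { toFun := fun p => p n
      map_add' := fun _ _ => rfl
      map_smul' := fun _ _ => rfl }
  let s : ℕ → F → C₀(ℕ, F) := fun n v =>
    { toFun := fun m => if m = n then v else 0
      continuous_toFun := continuous_of_discreteTopology
      zero_at_infty' := by
        rw [cocompact_eq_cofinite, Nat.cofinite_eq_atTop]
        refine tendsto_const_nhds.congr' ?_
        filter_upwards [eventually_gt_atTop n] with m hm
        simp [hm.ne'] }
  have hs : ∀ n v m, s n v m = if m = n then v else 0 := fun _ _ _ => rfl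
  let s₀ : ℕ → F →ₗ[𝕜] C₀(ℕ, F) := fun n =>
    { toFun := s n
      map_add' := fun v w => by
        ext m
        simp only [ZeroAtInftyContinuousMap.add_apply, hs]
        split_ifs <;> simp
      map_smul' := fun c v => by
        ext m
        simp only [ZeroAtInftyContinuousMap.smul_apply, hs, RingHom.id_apply]
        split_ifs <;> simp }
  refine ⟨C₀(ℕ, F), inferInstance, inferInstance, inferInstance,
    fun n => (co₀ n).mkContinuous 1 fun p => by rw [one_mul]; exact hle n p,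
    fun n => (s₀ n).mkContinuous 1 fun v => by
      rw [one_mul]
      refine hnl _ _ (norm_nonneg _) fun m => ?_
      change ‖s n v m‖ ≤ _
      rw [hs]; split_ifs <;> simp, hle, hnl, fun p => ?_, fun m n v => rfl⟩
  have := p.zero_at_infty'
  rw [cocompact_eq_cofinite, Nat.cofinite_eq_atTop] at this
  exact tendsto_zero_iff_norm_tendsto_zero.mp this

theorem exists_quot {𝕜 : Type*} [RCLike 𝕜] {W : Type v} [NormedAddCommGroup W] [NormedSpace 𝕜 W]
    [CompleteSpace W] {V : Type*} [NormedAddCommGroup V] [NormedSpace 𝕜 V]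
    (ψ : ℕ → W →L[𝕜] V) :
    ∃ (X : Type v) (_ : NormedAddCommGroup X) (_ : NormedSpace 𝕜 X) (_ : CompleteSpace X)
      (q : W →L[𝕜] X) (P : ℕ → X →L[𝕜] V), (∀ p, ‖q p‖ ≤ ‖p‖) ∧
        (∀ x, ‖x‖ ≤ 1 → ∃ p, q p = x ∧ ‖p‖ ≤ 2) ∧ (∀ n p, P n (q p) = ψ n p) ∧
        ∀ p, (∀ n, ψ n p = 0) → q p = 0 := by
  let N : Submodule 𝕜 W := ⨅ n, LinearMap.ker (ψ n).toLinearMap
  have hN : ∀ p, p ∈ N ↔ ∀ n, ψ n p = 0 := fun p => by simp [N, Submodule.mem_iInf]
  have hcl : IsClosed (N : Set W) := by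
    have : (N : Set W) = ⋂ n, {p | ψ n p = 0} := by
      ext p; simp [hN]
    rw [this]
    exact isClosed_iInter fun n => isClosed_eq (ψ n).continuous continuous_const
  let P₀ : ℕ → (W ⧸ N) →ₗ[𝕜] V := fun n => N.liftQ (ψ n).toLinearMap fun p hp => (hN p).mp hp n
  have hP₀ : ∀ n x, ‖P₀ n x‖ ≤ ‖ψ n‖ * ‖x‖ := by
    intro n x
    refine le_of_forall_pos_le_add fun ε hε => ?_
    obtain ⟨p, rfl, hp⟩ := Submodule.Quotient.norm_mk_lt x
      (show 0 < ε / (‖ψ n‖ + 1) by positivity)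
    have h1 : ‖ψ n‖ * (ε / (‖ψ n‖ + 1)) ≤ ε := by
      rw [← mul_div_assoc, div_le_iff₀ (by positivity)]
      nlinarith
    calc ‖P₀ n (Submodule.Quotient.mk p)‖ = ‖ψ n p‖ := rfl
      _ ≤ ‖ψ n‖ * ‖p‖ := (ψ n).le_opNorm p
      _ ≤ ‖ψ n‖ * (‖(Submodule.Quotient.mk p : W ⧸ N)‖ + ε / (‖ψ n‖ + 1)) := by gcongr
      _ ≤ _ := by rw [mul_add]; linarith
  refine ⟨W ⧸ N, inferInstance, inferInstance, inferInstance,
    N.mkQ.mkContinuous 1 fun p => by rw [one_mul]; exact Submodule.Quotient.norm_mk_le N p,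
    fun n => (P₀ n).mkContinuous ‖ψ n‖ (hP₀ n), fun p => Submodule.Quotient.norm_mk_le N p,
    fun x hx => ?_, fun n p => rfl, fun p hp => ?_⟩
  · obtain ⟨p, hp1, hp2⟩ := Submodule.Quotient.norm_mk_lt x one_pos
    exact ⟨p, hp1, by linarith⟩
  · exact (Submodule.Quotient.mk_eq_zero N).mpr ((hN p).mpr hp)

theorem counterexample (𝕜 : Type v) [RCLike 𝕜] :
    ∃ (X : Type v) (_ : NormedAddCommGroup X) (_ : NormedSpace 𝕜 X) (_ : CompleteSpace X),
      RDPP.{u} 𝕜 X ∧ ∀ n : ℕ, ∃ A : Set (StrongDual 𝕜 X), A.Nonempty ∧ Bornology.IsBounded A ∧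
        (n : ℝ≥0∞) * chiM 𝕜 A < omegaM 𝕜 A := by
  obtain ⟨V, _, _, _, _, _, ev, hev⟩ := exists_linf 𝕜
  obtain ⟨Z, _, _, _, cz, e, hz1, hz2, hz3⟩ := exists_lone 𝕜
  obtain ⟨J, hJ⟩ := exists_J hev hz1
  obtain ⟨W, _, _, _, co, sing, hW⟩ := exists_c0 𝕜 (V × Z)
  obtain ⟨X, _, _, _, q, P, h1, h2, h3, h4⟩ := exists_quot fun n => (phi J n).comp (co n)
  have S : Setup ev (fun z k => cz k z) e J co sing q P :=
    { linf := hev
      hasSum := hz1
      ev_J := hJ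
      norm_e := hz2
      ev_e := fun t k => by
        rw [hJ]
        simp [hz3]
      c0 := hW
      q_le := h1
      q_surj := h2
      P_q := h3
      q_ker := h4 }
  exact ⟨X, _, _, inferInstance, S.rdpp, S.main⟩

end Pool.Agent.P.MP_997199_an
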